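import Pool.Agent.L7h62.MV.Ten
import Pool.Agent.N123.SX.PULL

/-!
Traces of the canonical forms of a variety which is dominated by a finite cover.
-/

set_option autoImplicit false
set_option linter.all false
set_option maxHeartbeats 4000000
set_option synthInstance.maxHeartbeats 400000

open Module FF
open Pool.Agent.W602.GT (DerReg Divisorial RegAt)
open Pool.Agent.N145.SX (HX SepX)
open Pool.Agent.N145.PC (res res_apply charZero_L alg_back Rt exists_pts exists_generic)
open Pool.Agent.Y184.NT (trForm)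
open Pool.Agent.L7h62.MM

namespace Pool.Agent.L7h62.MV

section

variable {M N E : Type} [Field M] [Field N] [Field E] [Algebra ℂ M] [Algebra ℂ N] [Algebra ℂ E]
  [Algebra N M] [IsScalarTower ℂ N M] [FiniteDimensional N M] [Algebra E M] [IsScalarTower ℂ E M]
  {n w : ℕ}

/-- the canonical forms on `M` -/
noncomputable def om (M : Type) [Field M] [Algebra ℂ M] [Algebra E M] (x : Fin n → E) (f : E) :
    Frm ℂ M (Fin n) :=
  algebraMap E M f • dd ℂ (fun l => algebraMap E M (x l))

/-- regularity of the traces -/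
theorem th_reg [Algebra.EssFiniteType ℂ E] [Algebra.EssFiniteType ℂ N]
    [Algebra.EssFiniteType ℂ M] (hE : Algebra.trdeg ℂ E = n) (CN : Crd ℂ N (Fin w))
    {x : Fin n → E} (hx : IsTranscendenceBasis ℂ x) {f : E} (hf : f ∈ HX x (fun _ => False))
    {P : Place ℂ N} (hP : Divisorial w P) : RegF (trF CN (om M x f)) P := by
  have hM : Algebra.trdeg ℂ M = (w : ℕ) := by
    rw [(CN.up M).trdeg, Fintype.card_fin]
  refine trF_reg CN (by rwa [Fintype.card_fin]) fun Q e hQ => ?_
  intro D hD
  have h1 := Pool.Agent.N123.SX.PULL E M n w hE hM x hx (fun _ => False) f hf Q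
    (Pool.Agent.Y172.divisorial_up hQ hP) D (Or.inr ⟨fun ⟨_, _, h, _⟩ => h, hD⟩)
  change Q.Reg (algebraMap E M f * (Matrix.of fun i j => D i (algebraMap E M (x j)) :
    Matrix (Fin n) (Fin n) M).det)
  rwa [mul_comm]

theorem dd_ne {x : Fin n → M} (hx : AlgebraicIndependent ℂ x) (hM : Algebra.trdeg ℂ M = w) :
    dd ℂ x ≠ 0 := by
  have h1 : n ≤ w := by
    have h2 := hx.cardinalMk_le_trdeg
    rw [hM, Cardinal.mk_fin] at h2
    exact_mod_cast h2
  obtain ⟨r, rfl⟩ := Nat.exists_eq_add_of_le h1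
  obtain ⟨C, hC⟩ := ext_crd hx hM
  intro h0
  have h2 : dd ℂ x (fun i => C.E (Sum.inl i)) = 1 := by
    rw [dd_apply]
    have h3 : (Matrix.of fun i a => C.E (Sum.inl i) (x a) : Matrix (Fin n) (Fin n) M) = 1 := by
      ext i j
      rw [Matrix.of_apply, ← hC, C.dual, Matrix.one_apply]
      by_cases h : i = j
      · rw [if_pos h, if_pos (by rw [h])]
      · rw [if_neg h, if_neg fun h' => h (Sum.inl_injective h')]
    rw [h3, Matrix.det_one]
  rw [h0] at h2
  exact zero_ne_one h2

/-- points with the same restriction to `E` -/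
theorem res_inj {Ω : Type} [Field Ω] [Algebra ℂ Ω] [Algebra N Ω] [IsScalarTower ℂ N Ω]
    (hgen : IntermediateField.adjoin N (Set.range (algebraMap E M)) = ⊤) {τ τ0 : M →ₐ[N] Ω}
    (h : ∀ e : E, τ (algebraMap E M e) = τ0 (algebraMap E M e)) : τ = τ0 := by
  let W : IntermediateField N M :=
    { AlgHom.equalizer τ τ0 with
      inv_mem' := fun a ha => by
        have ha' : τ a = τ0 a := ha
        change τ a⁻¹ = τ0 a⁻¹
        rw [map_inv₀, map_inv₀, ha'] }
  have h1 : (⊤ : IntermediateField N M) ≤ W := by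
    rw [← hgen, IntermediateField.adjoin_le_iff]
    rintro _ ⟨e, rfl⟩
    exact h e
  ext z
  exact h1 (IntermediateField.mem_top (x := z))

/-- **The points of `E` are determined by the coefficients.** -/
theorem core_alg {x : Fin n → E} (hsep : SepHyp x M N)
    (hgen : IntermediateField.adjoin N (Set.range (algebraMap E M)) = ⊤) {ι : Type} (h : ι → M)
    (hh : ∃ D, h D ≠ 0) {r : ℕ} {f0 : Fin r → {f : E // f ∈ HX x (fun _ => False)}}
    {D0 : Fin r → ι} {a : {f : E // f ∈ HX x (fun _ => False)} → Fin r → N}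
    {b : Fin r → Fin r → N}
    (hab : ∀ f l, a f l = ∑ j, Algebra.trace N M (algebraMap E M f.1 * h (D0 j)) * b j l)
    (ha : ∀ f D, Algebra.trace N M (algebraMap E M f.1 * h D) =
      ∑ l, a f l * Algebra.trace N M (algebraMap E M (f0 l).1 * h D)) (e : E) :
    IsAlgebraic (IntermediateField.adjoin ℂ (Set.range fun p :
      {f : E // f ∈ HX x (fun _ => False)} × Fin r => a p.1 p.2)) (algebraMap E M e) := by
  classical
  have hchar : CharZero N := charZero_L
  obtain ⟨R, hR⟩ : ∃ R, R = IntermediateField.adjoin ℂ (Set.range fun p :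
      {f : E // f ∈ HX x (fun _ => False)} × Fin r => a p.1 p.2) := ⟨_, rfl⟩
  rw [← hR]
  have haR : ∀ f l, a f l ∈ R := fun f l => by
    rw [hR]
    exact IntermediateField.subset_adjoin _ _ ⟨(f, l), rfl⟩
  let Ω := AlgebraicClosure N
  have hT' : IsScalarTower ℂ N Ω := inferInstance
  obtain ⟨Ω', iF, iC, k1, k2, hk, hpts⟩ := exists_generic R Ω
  let iA : Algebra ℂ Ω' := (k1.comp (algebraMap ℂ Ω)).toAlgebra
  have h4 : ∀ c : R, k2 (algebraMap N Ω c) = k1 (algebraMap N Ω c) := hk
  let i1 : Ω →ₐ[ℂ] Ω' := { k1 with commutes' := fun c => rfl }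
  let i2 : Ω →ₐ[ℂ] Ω' := { k2 with
    commutes' := fun c => by
      have h5 := h4 (algebraMap ℂ R c)
      change k2 (algebraMap ℂ Ω c) = k1 (algebraMap ℂ Ω c)
      rw [IsScalarTower.algebraMap_apply ℂ N Ω]
      exact h5 }
  have hi : ∀ f l, i1 (algebraMap N Ω (a f l)) = i2 (algebraMap N Ω (a f l)) := fun f l =>
    (h4 ⟨_, haR f l⟩).symm
  obtain ⟨τ0⟩ : Nonempty (M →ₐ[N] Ω) := ⟨IsAlgClosed.lift (R := N) (M := Ω) (S := M)⟩
  by_cases hex : ∃ τ : M →ₐ[N] Ω, ∀ z : E,
    i2 (τ (algebraMap E M z)) = i1 (τ0 (algebraMap E M z))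
  · obtain ⟨τ, hτ⟩ := hex
    exact alg_back τ0 (hpts _ _ (hτ e).symm)
  exfalso
  obtain ⟨D, hD⟩ := hh
  apply hD
  obtain ⟨S, hS⟩ : ∃ S : Fin r → Ω', ∀ l, S l =
    i1 (algebraMap N Ω (Algebra.trace N M (algebraMap E M (f0 l).1 * h D))) := ⟨_, fun _ => rfl⟩
  obtain ⟨c, hc⟩ : ∃ c : Fin r → Ω', ∀ j, c j = ∑ l, i2 (algebraMap N Ω (b j l)) * S l :=
    ⟨_, fun _ => rfl⟩
  let p : (M →ₐ[N] Ω) ⊕ (M →ₐ[N] Ω) → (E →ₐ[ℂ] Ω') :=
    Sum.elim (fun τ => i1.comp (res E τ)) (fun τ => i2.comp (res E τ))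
  let wt : (M →ₐ[N] Ω) ⊕ (M →ₐ[N] Ω) → Ω' :=
    Sum.elim (fun τ => i1 (τ (h D))) (fun τ => -∑ j, c j * i2 (τ (h (D0 j))))
  have h1 := sep_group' p wt (Sum.inl τ0) (hsep.two Ω' i1 i2 τ0) (by
    intro f hf
    have h3 := ha ⟨f, hf⟩ D
    have h5 : i1 (algebraMap N Ω (Algebra.trace N M (algebraMap E M f * h D))) =
        ∑ l, (∑ j, i2 (algebraMap N Ω (Algebra.trace N M (algebraMap E M f * h (D0 j)))) *
          i2 (algebraMap N Ω (b j l))) * S l := by
      rw [h3, map_sum, map_sum]
      refine Finset.sum_congr rfl fun l _ => ?_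
      rw [map_mul, map_mul, hi, ← hS, hab, map_sum, map_sum]
      congr 1
      refine Finset.sum_congr rfl fun j _ => ?_
      rw [map_mul, map_mul]
    have e1 : ∑ τ : M →ₐ[N] Ω, wt (Sum.inl τ) * p (Sum.inl τ) f =
        i1 (algebraMap N Ω (Algebra.trace N M (algebraMap E M f * h D))) := by
      rw [trace_eq_sum_embeddings (K := N) (L := M) Ω, map_sum]
      refine Finset.sum_congr rfl fun τ _ => ?_
      change i1 (τ (h D)) * i1 (res E τ f) = _
      rw [res_apply, map_mul, map_mul, mul_comm]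
    have e2 : ∑ τ : M →ₐ[N] Ω, wt (Sum.inr τ) * p (Sum.inr τ) f = -∑ j, c j *
        i2 (algebraMap N Ω (Algebra.trace N M (algebraMap E M f * h (D0 j)))) := by
      have e3 : ∀ j, c j *
          i2 (algebraMap N Ω (Algebra.trace N M (algebraMap E M f * h (D0 j)))) =
          ∑ τ : M →ₐ[N] Ω, c j * (i2 (τ (algebraMap E M f)) * i2 (τ (h (D0 j)))) := by
        intro j
        rw [trace_eq_sum_embeddings (K := N) (L := M) Ω, map_sum, Finset.mul_sum]
        refine Finset.sum_congr rfl fun τ _ => ?_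
        rw [map_mul, map_mul]
      rw [Finset.sum_congr rfl fun j _ => e3 j, Finset.sum_comm, ← Finset.sum_neg_distrib]
      refine Finset.sum_congr rfl fun τ _ => ?_
      change (-∑ j, c j * i2 (τ (h (D0 j)))) * i2 (res E τ f) = _
      rw [res_apply, neg_mul, Finset.sum_mul]
      congr 1
      refine Finset.sum_congr rfl fun j _ => ?_
      ring
    rw [Fintype.sum_sum_type, e1, e2, h5]
    rw [add_neg_eq_zero]
    have e4 : ∀ l, (∑ j, i2 (algebraMap N Ω (Algebra.trace N M (algebraMap E M f * h (D0 j)))) *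
          i2 (algebraMap N Ω (b j l))) * S l = ∑ j,
          i2 (algebraMap N Ω (Algebra.trace N M (algebraMap E M f * h (D0 j)))) *
          i2 (algebraMap N Ω (b j l)) * S l := fun l => Finset.sum_mul _ _ _
    rw [Finset.sum_congr rfl fun l _ => e4 l, Finset.sum_comm]
    refine Finset.sum_congr rfl fun j _ => ?_
    rw [hc, Finset.sum_mul]
    refine Finset.sum_congr rfl fun l _ => ?_
    ring)
  have h2 : Finset.univ.filter (fun τ => p τ = p (Sum.inl τ0)) = {Sum.inl τ0} := by
    ext ρ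
    rw [Finset.mem_filter, Finset.mem_singleton]
    constructor
    · rintro ⟨-, hρ⟩
      rcases ρ with τ | τ
      · congr 1
        refine res_inj hgen fun z => ?_
        exact i1.injective (DFunLike.congr_fun hρ z)
      · exact absurd ⟨τ, fun z => DFunLike.congr_fun hρ z⟩ hex
    · rintro rfl
      exact ⟨Finset.mem_univ _, rfl⟩
  rw [h2, Finset.sum_singleton] at h1
  change i1 (τ0 (h D)) = 0 at h1
  rw [_root_.map_eq_zero, _root_.map_eq_zero] at h1
  exact h1

/-- **The big line bundle.** -/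
theorem big_core [Algebra.EssFiniteType ℂ E] [Algebra.EssFiniteType ℂ N]
    [Algebra.EssFiniteType ℂ M] (hE : Algebra.trdeg ℂ E = n) (hw : Algebra.trdeg ℂ N = w)
    {x : Fin n → E} (hx : IsTranscendenceBasis ℂ x) (hsep : SepHyp x M N)
    (hgen : IntermediateField.adjoin N (Set.range (algebraMap E M)) = ⊤)
    (hN : ∀ R : IntermediateField ℂ N, (∀ e : E, IsAlgebraic R (algebraMap E M e)) →
      ∀ z : N, IsAlgebraic R z) :
    BigCotangent N w ∧ (w = n → CanonicalMapFinite N w) := by
  classical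
  obtain ⟨CN⟩ := exists_crd' hw
  choose lf hlf using fun D : Derivation ℂ N N =>
    Pool.Agent.Y172.exists_lift (L := M) CN.trdeg D
  obtain ⟨xM, hxM⟩ : ∃ xM : Fin n → M, xM = fun l => algebraMap E M (x l) := ⟨_, rfl⟩
  have hxMi : AlgebraicIndependent ℂ xM := by
    rw [hxM]
    exact hx.1.map' (f := IsScalarTower.toAlgHom ℂ E M) (algebraMap E M).injective
  have hMw : Algebra.trdeg ℂ M = w := by
    rw [(CN.up M).trdeg, Fintype.card_fin]
  have hdd := dd_ne hxMi hMw
  obtain ⟨h, hh⟩ : ∃ h : (Fin n → Derivation ℂ N N) → M, ∀ D, h D = dd ℂ xM fun i => lf (D i) :=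
    ⟨_, fun _ => rfl⟩
  have hval : ∀ f D, trF CN (om M x f) D = Algebra.trace N M (algebraMap E M f * h D) := by
    intro f D
    rw [trF_apply CN (om M x f) (D' := fun i => lf (D i)) fun i z => hlf (D i) z, hh, hxM]
    rfl
  have hlE : ∀ i, lf (CN.E i) = (CN.up M).E i := fun i =>
    lift_unique CN fun z => by rw [hlf, CN.up_E]
  obtain ⟨κ, hκ⟩ := exists_idx (CN.up M) hdd
  have hne : ∃ D, h D ≠ 0 := by
    refine ⟨fun i => CN.E (κ i), ?_⟩
    rw [hh]
    simp only [hlE]
    exact hκ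
  refine ⟨?_, ?_⟩
  · obtain ⟨θ, hθ⟩ : ∃ θ : {f : E // f ∈ HX x (fun _ => False)} →
        (Fin n → Derivation ℂ N N) → N,
        θ = fun f D => Algebra.trace N M (algebraMap E M f.1 * h D) := ⟨_, rfl⟩
    obtain ⟨r, f0, D0, h0, h1⟩ := exists_max θ (d := finrank N M) (by
      rw [hθ]
      exact mnr_trace (fun f : {f : E // f ∈ HX x (fun _ => False)} => algebraMap E M f.1) h)
    obtain ⟨a, b, hab, ha⟩ := expand θ h0 h1
    have halg := fun e : E => core_alg hsep hgen h hne (f0 := f0) (D0 := D0) (a := a) (b := b)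
      (fun f l => by
        rw [hab, hθ])
      (fun f D => by
        have h2 := ha f D
        rw [hθ] at h2
        exact h2) e
    have hNR := hN _ halg
    obtain ⟨g, hg, hgt⟩ := exists_t (N := ℂ) (K := N) (S := Set.range fun p :
      {f : E // f ∈ HX x (fun _ => False)} × Fin r => a p.1 p.2) hNR hw
    choose p hp using hg
    have hθf : ∀ f D, θ f D = trF CN (om M x f.1) D := by
      intro f D
      rw [hθ, hval]
    have hmn : ∀ (f0 : Fin r → {f : E // f ∈ HX x (fun _ => False)})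
        (D0 : Fin r → Fin n → Derivation ℂ N N),
        mnr (fun (f : {f : E // f ∈ HX x (fun _ => False)}) D => trF CN (om M x f.1) D) f0 D0 =
        mnr θ f0 D0 := by
      intro f0 D0
      unfold mnr
      simp only [hθf]
    refine big_of hw (fun f : {f : E // f ∈ HX x (fun _ => False)} => trF CN (om M x f.1))
      (fun f P hP => th_reg hE CN hx f.2 hP) (f0 := f0) (D0 := D0) ?_ (a := a) ?_ (g := p) ?_
    · rw [hmn]
      exact h0
    · intro f D
      have h2 := ha f D
      simp only [hθf] at h2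
      exact h2
    · have h3 : (fun i => a (p i).1 (p i).2) = g := funext hp
      rw [h3]
      exact hgt.1
  · intro hwn
    subst hwn
    obtain ⟨h', hh'⟩ : ∃ h' : M, h' = dd ℂ xM (CN.up M).E := ⟨_, rfl⟩
    have hh'0 : h' ≠ 0 := by
      intro h0
      apply hκ
      have hinj := inj_idx hκ
      obtain ⟨π, hπ⟩ : ∃ π : Equiv.Perm (Fin w), ∀ i, π i = κ i :=
        ⟨Equiv.ofBijective κ ((Fintype.bijective_iff_injective_and_card κ).2 ⟨hinj, rfl⟩),
          fun i => rfl⟩
      have h5 := (dd ℂ xM).map_perm (CN.up M).E π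
      have h6 : (fun i => (CN.up M).E (κ i)) = (CN.up M).E ∘ π := by
        funext i
        rw [Function.comp_apply, hπ]
      rw [h6, h5, ← hh', h0, smul_zero]
    have htop : ∀ z : M,
        Algebra.trace (IntermediateField.adjoin N (Set.range (algebraMap E M))) M z = 0 → z = 0 := by
      rw [hgen]
      intro z hz
      have h5 := Algebra.trace_algebraMap (R := (⊤ : IntermediateField N M)) (S := M)
        ⟨z, IntermediateField.mem_top⟩
      have h6 : algebraMap (⊤ : IntermediateField N M) M ⟨z, IntermediateField.mem_top⟩ = z := rfl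
      rw [h6, hz, IntermediateField.finrank_top, one_smul] at h5
      exact (congrArg Subtype.val h5).symm
    obtain ⟨T, hT⟩ : ∃ T : {f : E // f ∈ HX x (fun _ => False)} → N, ∀ f, T f =
      Algebra.trace N M (h' * algebraMap E M f.1) := ⟨_, fun _ => rfl⟩
    have hT0 : ∃ f, T f ≠ 0 := by
      by_contra hcon
      push Not at hcon
      refine hh'0 (htop _ (relA_one hsep (h := h') fun f hf => ?_))
      have h5 := hcon ⟨f, hf⟩
      rw [hT] at h5
      exact h5
    obtain ⟨f1, hf1⟩ := hT0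
    obtain ⟨Ω', iF, iA, iC, i1, i2, lam, hlam, hlamT, hpts⟩ := exists_pts T (f1 := f1) hf1
    obtain ⟨τ0⟩ : Nonempty (M →ₐ[N] AlgebraicClosure N) :=
      ⟨IsAlgClosed.lift (R := N) (M := AlgebraicClosure N) (S := M)⟩
    have halg : ∀ e : E, IsAlgebraic (Rt T) (algebraMap E M e) := by
      rcases relA_two hsep (h := h') hlam (fun f hf => by
          have h1 := hlamT ⟨f, hf⟩
          rw [hT] at h1
          exact h1) τ0 with ⟨τ', hτ'⟩ | h2
      · intro e
        exact alg_back τ0 (hpts _ _ (hτ' e).symm)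
      · exact absurd (htop _ h2) hh'0
    have hNR := hN _ halg
    refine canFin_of_algL hw (y := CN.z) (G := CN.E) CN.dual CN.bas.1 T ⟨f1, hf1⟩ ?_
      (fun l => hNR (CN.z l))
    intro f P hP D hD
    have h5 : trForm CN.z (T f) D = trF CN (om M x f.1) D := by
      rw [top_val (trF CN (om M x f.1)) (Matrix.of fun i c => D i (CN.z c)) CN.E D
        (fun i => (expandD CN (D i)).symm), hval, hh, hT]
      simp only [hlE]
      change _ * _ = _ * _
      rw [← hh', mul_comm h']
    rw [h5]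
    exact th_reg hE CN hx f.2 hP D hD

end

end Pool.Agent.L7h62.MV
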