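import Pool.Agent.L7h62.MV.Core
import Pool.Agent.L7h62.MM.Fin6
import Pool.Agent.N297.SX.Uni

/-!
Multivalued maps to products.
-/

set_option autoImplicit false
set_option linter.all false
set_option maxHeartbeats 4000000
set_option synthInstance.maxHeartbeats 400000

open Module FF
open Pool.Agent.N145.SX (HX SepX zS basis_zS trdeg_basis alg_of_basis le_algCl)
open Pool.Agent.N145.PC (MF MJ Js mem_Js)
open Pool.Agent.L7h62.MM

namespace Pool.Agent.L7h62.MV

theorem trdeg_fin {k M : Type} [Field k] [Field M] [Algebra k M] [Algebra.EssFiniteType k M] :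
    Algebra.trdeg k M < Cardinal.aleph0 := by
  have h1 : (⊤ : IntermediateField k M).FG := IntermediateField.fg_top k M
  obtain ⟨S, hS⟩ := h1
  have h2 : Algebra.IsAlgebraic (Algebra.adjoin k (S : Set M)) M := by
    refine Pool.Agent.W619.PQ.alg_adjoin fun z => ?_
    rw [hS]
    exact isAlgebraic_algebraMap (⟨z, IntermediateField.mem_top⟩ : (⊤ : IntermediateField k M))
  obtain ⟨T, hTS, hT⟩ := exists_isTranscendenceBasis_subset (R := k) (S : Set M)
  rw [← hT.cardinalMk_eq_trdeg]
  have h3 : T.Finite := S.finite_toSet.subset hTS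
  exact h3.lt_aleph0

section base

variable {K L : Type} [Field K] [Field L] [Algebra ℂ K] [Algebra ℂ L] [Algebra L K]
  [IsScalarTower ℂ L K] [FiniteDimensional L K]

/-- the base of the fibration -/
theorem exists_base (E : IntermediateField ℂ K) :
    ∃ N : IntermediateField ℂ L, (∀ z : L, IsAlgebraic N z → z ∈ N) ∧
      (∀ z ∈ E, IsAlgebraic N z) ∧
      (∀ N' : IntermediateField ℂ L, (∀ z : L, IsAlgebraic N' z → z ∈ N') →
        (∀ z ∈ E, IsAlgebraic N' z) → N ≤ N') ∧
      ∀ R : IntermediateField ℂ N, (∀ z ∈ E, IsAlgebraic R z) → ∀ z : N, IsAlgebraic R z := by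
  obtain ⟨S, hS⟩ : ∃ S : Set L, S =
    {c : L | ∃ (e : E) (i : ℕ), c = (minpoly L (algebraMap E K e)).coeff i} := ⟨_, rfl⟩
  obtain ⟨N, hSN, hNcl, hNalg⟩ := exists_N (L := L) S
  have hp : ∀ e : E, ∃ p : Polynomial N, p.map (algebraMap N L) =
      minpoly L (algebraMap E K e) := by
    intro e
    have h1 : minpoly L (algebraMap E K e) ∈ Polynomial.lifts (algebraMap N L) := by
      rw [Polynomial.lifts_iff_coeff_lifts]
      intro i
      refine ⟨⟨_, hSN ?_⟩, rfl⟩
      rw [hS]
      exact ⟨e, i, rfl⟩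
    obtain ⟨p, hp⟩ := (Polynomial.mem_lifts _).1 h1
    exact ⟨p, hp⟩
  have iNLK : IsScalarTower N L K := IsScalarTower.of_algebraMap_eq fun _ => rfl
  have iCNK : IsScalarTower ℂ N K := IsScalarTower.of_algebraMap_eq fun c =>
    IsScalarTower.algebraMap_apply ℂ L K c
  refine ⟨N, hNcl, fun z hz => ?_, fun N' hcl' hE' => ?_, fun R hR => ?_⟩
  · obtain ⟨p, hp⟩ := hp ⟨z, hz⟩
    exact (minpoly_N hp).2.isAlgebraic
  · have j1 : IsScalarTower N' L K := IsScalarTower.of_algebraMap_eq fun _ => rfl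
    have hS' : ∀ c ∈ S, c ∈ N' := by
      intro c hc
      rw [hS] at hc
      obtain ⟨e, i, rfl⟩ := hc
      exact hcl' _ (alg_coeff (hE' _ e.2) i)
    have h1 : IntermediateField.adjoin ℂ {c : N | (c : L) ∈ S} ≤ N'.comap N.val := by
      rw [IntermediateField.adjoin_le_iff]
      intro c hc
      exact hS' _ hc
    intro z hz
    apply hcl'
    have h2 := hNalg ⟨z, hz⟩
    exact alg_tr (A := IntermediateField.adjoin ℂ {c : N | (c : L) ∈ S}) (B := N) (algebraMap N L)
        (fun a => ⟨⟨((a : N) : L), h1 a.2⟩, rfl⟩) h2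
  · have j1 : IsScalarTower R L K := IsScalarTower.of_algebraMap_eq fun _ => rfl
    have hRN : ∀ c : N, (c : L) ∈ S → c ∈ (algebraicClosure R N).restrictScalars ℂ := by
      intro c hc
      rw [IntermediateField.mem_restrictScalars, mem_algebraicClosure_iff]
      have h1 : IsAlgebraic R (c : L) := by
        rw [hS] at hc
        obtain ⟨e, i, h2⟩ := hc
        rw [h2]
        exact alg_coeff (hR _ e.2) i
      exact (isAlgebraic_algebraMap_iff (algebraMap N L).injective).1 h1
    have h1 : IntermediateField.adjoin ℂ {c : N | (c : L) ∈ S} ≤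
        (algebraicClosure R N).restrictScalars ℂ := by
      rw [IntermediateField.adjoin_le_iff]
      intro c hc
      exact hRN c hc
    intro z
    have h2 : IsAlgebraic (algebraicClosure R N) z :=
      alg_tr (A := IntermediateField.adjoin ℂ {c : N | (c : L) ∈ S}) (B := N) (RingHom.id N)
        (fun a => ⟨⟨(a : N), h1 a.2⟩, rfl⟩) (hNalg z)
    exact h2.restrictScalars R

end base

section rank

variable {N L K : Type} [Field N] [CharZero N] [Field L] [Field K] [Algebra N L] [Algebra L K]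
  [Algebra N K] [IsScalarTower N L K] [FiniteDimensional L K] [Algebra.EssFiniteType N K]
  (hcl : ∀ z : L, IsIntegral N z → ∃ y : N, algebraMap N L y = z) (M : IntermediateField N K)
  [FiniteDimensional N M]

include hcl in
theorem rank_one {S' : Set M} {S : Set K} (h : M.val '' S' = S) :
    finrank N (IntermediateField.adjoin N S') = finrank L (IntermediateField.adjoin L S) := by
  have hS : ∀ z ∈ S, IsAlgebraic N z := by
    intro z hz
    rw [← h] at hz
    obtain ⟨y, -, rfl⟩ := hz
    have h1 : IsAlgebraic N y := Algebra.IsAlgebraic.isAlgebraic y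
    exact h1.algebraMap (A := K)
  have h1 := fin_adj hS
  rw [← adj_adj (N := N) (B := L) S, rank_eq hcl]
  have h2 : (IntermediateField.adjoin N S').map M.val = IntermediateField.adjoin N S := by
    rw [IntermediateField.adjoin_map, ← h]
  rw [← h2]
  exact (IntermediateField.equivMap (IntermediateField.adjoin N S') M.val).toLinearEquiv.finrank_eq

include hcl in
theorem rank_sub {S1' S2' : Set M} {S1 S2 : Set K} (h1 : M.val '' S1' = S1)
    (h2 : M.val '' S2' = S2) :
    finrank (IntermediateField.adjoin N S1') (IntermediateField.adjoin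
      (IntermediateField.adjoin N S1' : IntermediateField N M) S2') =
    finrank (IntermediateField.adjoin L S1) (IntermediateField.adjoin
      (IntermediateField.adjoin L S1 : IntermediateField L K) S2) := by
  have e1 := rank_tower (B := N) (K := M) S1' S2'
  have e2 := rank_tower (B := L) (K := K) S1 S2
  have e3 := rank_one hcl M h1
  have e4 := rank_one hcl M (S' := S1' ∪ S2') (S := S1 ∪ S2) (by rw [Set.image_union, h1, h2])
  rw [e4, ← e2, ← e3] at e1
  exact Nat.eq_of_mul_eq_mul_left finrank_pos e1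

end rank

section main

variable {K : Type} [Field K] [Algebra ℂ K] {k : ℕ} {F : Fin k → IntermediateField ℂ K}
  {m : Fin k → ℕ}

/-- the coordinates are independent -/
theorem ind_all (hsup : Algebra.trdeg ℂ (⨆ i, F i : IntermediateField ℂ K) = (∑ i, m i : ℕ))
    {x : ∀ i : Fin k, Fin (m i) → F i} (hx : ∀ i, IsTranscendenceBasis ℂ (x i)) :
    AlgebraicIndependent ℂ fun p : (i : Fin k) × Fin (m i) => (x p.1 p.2 : K) := by
  obtain ⟨T, hT⟩ : ∃ T, T = ⨆ i, F i := ⟨_, rfl⟩
  have hle : ∀ i, F i ≤ T := fun i => by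
    rw [hT]
    exact le_iSup F i
  obtain ⟨w, hw⟩ : ∃ w : ((i : Fin k) × Fin (m i)) → T,
    w = fun p => ⟨(x p.1 p.2 : K), hle _ (x p.1 p.2).2⟩ := ⟨_, rfl⟩
  obtain ⟨S, hS⟩ : ∃ S, S = IntermediateField.adjoin ℂ (Set.range fun p => (w p : K)) := ⟨_, rfl⟩
  have hwS : ∀ l, (w l : K) ∈ S := fun l => by
    rw [hS]
    exact IntermediateField.subset_adjoin _ _ ⟨l, rfl⟩
  have h3 : ∀ i, ∀ v ∈ F i, IsAlgebraic S v := by
    intro i v hv
    refine alg_of_basis (hx i) (fun j => ?_) hv
    have h1 := hwS ⟨i, j⟩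
    rw [hw] at h1
    exact h1
  have h4 := le_algCl h3 hT
  have h5 : Algebra.IsAlgebraic (Algebra.adjoin ℂ (Set.range w)) T := by
    refine Pool.Agent.W619.PQ.alg_adjoin fun z => ?_
    have h6 := h4 z.2
    rw [IntermediateField.mem_restrictScalars, mem_algebraicClosure_iff, hS] at h6
    have h7 : (IntermediateField.adjoin ℂ (Set.range w)).map T.val =
        IntermediateField.adjoin ℂ (Set.range fun p => (w p : K)) := by
      rw [IntermediateField.adjoin_map, ← Set.range_comp]
      rfl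
    obtain ⟨A, hA⟩ : ∃ A, A = IntermediateField.adjoin ℂ (Set.range w) := ⟨_, rfl⟩
    rw [← hA] at h7 ⊢
    obtain ⟨P, hP0, hP⟩ : IsAlgebraic A (z : K) := by
      refine alg_tr (A := IntermediateField.adjoin ℂ (Set.range fun p => (w p : K))) (B := K)
        (RingHom.id K) (fun a => ?_) h6
      have h8 : (a : K) ∈ A.map T.val := by
        rw [h7]
        exact a.2
      obtain ⟨y, hy, hya⟩ := h8
      exact ⟨⟨y, hy⟩, hya⟩
    refine ⟨P, hP0, ?_⟩
    apply Subtype.ext
    have h9 := Polynomial.hom_eval₂ P (algebraMap A T) (algebraMap T K) z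
    refine Eq.trans h9 ?_
    exact hP
  have h6 : IsTranscendenceBasis ℂ w := by
    refine Algebra.IsAlgebraic.isTranscendenceBasis_of_lift_le_trdeg_of_finite ℂ _ ?_
    rw [hT, hsup]
    simp
  have h7 := h6.1.map' (f := T.val) T.val.injective
  rw [hw] at h7
  exact h7

variable {L : Type} [Field L] [Algebra ℂ L] [Algebra L K] [IsScalarTower ℂ L K]
  [FiniteDimensional L K]

/-- **Varieties with a multivalued map to a product.** -/
theorem multival [hess : Algebra.EssFiniteType ℂ K]
    (hm : ∀ i : Fin k, Algebra.trdeg ℂ (F i) = m i)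
    (hsup : Algebra.trdeg ℂ (⨆ i, F i : IntermediateField ℂ K) = (∑ i, m i : ℕ))
    {x : ∀ i : Fin k, Fin (m i) → F i} (hx : ∀ i, IsTranscendenceBasis ℂ (x i)) {g : Fin k → ℕ}
    (hsep : ∀ i, SepX (x i) (fun _ => False) (g i))
    (hd : ∀ l : Fin k, 2 * finrank (MF F L (Js k l.val))
      (IntermediateField.adjoin (MF F L (Js k l.val)) (F l : Set K)) < g l) :
    ∃ (N : IntermediateField ℂ L) (w : ℕ),
      ((∀ z : L, IsAlgebraic N z → z ∈ N) ∧ (∀ i : Fin k, ∀ z ∈ F i, IsAlgebraic N z) ∧
        ∀ N' : IntermediateField ℂ L, (∀ z : L, IsAlgebraic N' z → z ∈ N') →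
          (∀ i : Fin k, ∀ z ∈ F i, IsAlgebraic N' z) → N ≤ N') ∧
      BigCotangent N w ∧ ∑ i, m i ≤ w ∧ (w = ∑ i, m i → CanonicalMapFinite N w) := by
  have hind := ind_all hsup hx
  obtain ⟨E, hE⟩ : ∃ E, E = ⨆ i, F i := ⟨_, rfl⟩
  have hle : ∀ i : Fin k, F i ≤ E := fun i => by
    rw [hE]
    exact le_iSup F i
  obtain ⟨N, hNcl, hNE, hNmin, hNR⟩ := exists_base (L := L) E
  have iNLK : IsScalarTower N L K := IsScalarTower.of_algebraMap_eq fun _ => rfl
  have iCNK : IsScalarTower ℂ N K := IsScalarTower.of_algebraMap_eq fun c =>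
    IsScalarTower.algebraMap_apply ℂ L K c
  have hcN : CharZero N := charZero_of_injective_algebraMap (algebraMap ℂ N).injective
  have f1 : Algebra.EssFiniteType ℂ L := Pool.Agent.TH466.QG.ess_below (K := K)
  have f2 : Algebra.EssFiniteType ℂ N := Pool.Agent.N999.SX.ess_any N
  have f3 : Algebra.EssFiniteType N K := Algebra.EssFiniteType.of_comp ℂ N K
  -- the field `M`
  obtain ⟨M, hM⟩ : ∃ M : IntermediateField N K, M = IntermediateField.adjoin N (E : Set K) :=
    ⟨_, rfl⟩
  have hEM : ∀ z ∈ E, z ∈ M := fun z hz => by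
    rw [hM]
    exact IntermediateField.subset_adjoin _ _ hz
  have g1 : FiniteDimensional N M := by
    rw [hM]
    exact fin_adj hNE
  have iCNM : IsScalarTower ℂ N M := IsScalarTower.of_algebraMap_eq fun c => by
    apply Subtype.ext
    exact IsScalarTower.algebraMap_apply ℂ N K c
  have f4 : Algebra.EssFiniteType ℂ M := Algebra.EssFiniteType.comp ℂ N M
  let iv : M →ₐ[ℂ] K := M.val.restrictScalars ℂ
  obtain ⟨F', hF'⟩ : ∃ F' : Fin k → IntermediateField ℂ M, ∀ i, F' i = (F i).comap iv :=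
    ⟨_, fun _ => rfl⟩
  have hmem : ∀ i (z : M), z ∈ F' i ↔ (z : K) ∈ F i := by
    intro i z
    rw [hF']
    rfl
  let e : ∀ i, F i ≃ₐ[ℂ] F' i := fun i =>
    { toFun := fun z => ⟨⟨z, hEM z (hle i z.2)⟩, (hmem i _).2 z.2⟩
      invFun := fun w => ⟨((w : M) : K), (hmem i _).1 w.2⟩
      left_inv := fun _ => rfl
      right_inv := fun _ => rfl
      map_mul' := fun _ _ => rfl
      map_add' := fun _ _ => rfl
      commutes' := fun _ => rfl }
  have he : ∀ i (z : F i), (((e i z : F' i) : M) : K) = z := fun i z => rfl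
  obtain ⟨E', hE'⟩ : ∃ E', E' = ⨆ i, F' i := ⟨_, rfl⟩
  have hle' : ∀ i : Fin k, F' i ≤ E' := fun i => by
    rw [hE']
    exact le_iSup F' i
  have hess' : ∀ i, Algebra.EssFiniteType ℂ (F' i) := fun i => Pool.Agent.N999.SX.ess_any _
  have hessE' : Algebra.EssFiniteType ℂ E' := Pool.Agent.N999.SX.ess_any _
  have hm' : ∀ i, Algebra.trdeg ℂ (F' i) = m i := fun i => by
    rw [← (e i).trdeg_eq, hm]
  have hx' : ∀ i, IsTranscendenceBasis ℂ (fun j => e i (x i j)) := fun i =>
    (e i).isTranscendenceBasis (hx i)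
  have hsep' : ∀ i, SepX (fun j => e i (x i j)) (fun _ => False) (g i) := fun i =>
    Pool.Agent.N297.SX.SepX_equiv (e i) (x i) (hsep i)
  have hind' : AlgebraicIndependent ℂ fun p : (i : Fin k) × Fin (m i) =>
      ((e p.1 (x p.1 p.2) : F' p.1) : M) := AlgebraicIndependent.of_comp iv hind
  obtain ⟨n, hn⟩ : ∃ n, n = ∑ i, m i := ⟨_, rfl⟩
  obtain ⟨e0⟩ : Nonempty (Fin n ≃ (i : Fin k) × Fin (m i)) := by
    rw [hn]
    exact ⟨finSigmaFinEquiv.symm⟩
  rw [← hn]
  -- the degrees
  have him : ∀ i, M.val '' (F' i : Set M) = (F i : Set K) := by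
    intro i
    ext z
    constructor
    · rintro ⟨y, hy, rfl⟩
      exact (hmem i y).1 hy
    · intro hz
      exact ⟨⟨z, hEM z (hle i hz)⟩, (hmem i _).2 hz, rfl⟩
  have hrange : ∀ i, Set.range (algebraMap (F i) K) = (F i : Set K) := fun i =>
    Subtype.range_coe
  have hrange' : ∀ i, Set.range (algebraMap (F' i) M) = (F' i : Set M) := fun i =>
    Subtype.range_coe
  have hd' : ∀ l : Fin k, 2 * finrank (MF F' N (Js k l.val))
      (IntermediateField.adjoin (MF F' N (Js k l.val)) (F' l : Set M)) < g l := by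
    intro l
    have h1 := hd l
    unfold MF MJ at h1 ⊢
    rwa [rank_sub (N := N) (L := L) (K := K)
      (fun z hz => ⟨⟨z, hNcl z hz.isAlgebraic⟩, rfl⟩) M
      (S1' := ⋃ i ∈ Js k l.val, Set.range (algebraMap (F' i) M)) (S2' := (F' l : Set M))
      (S1 := ⋃ i ∈ Js k l.val, Set.range (algebraMap (F i) K)) (S2 := (F l : Set K)) (by
        rw [Set.image_iUnion₂]
        simp only [hrange, hrange', him]) (him l)]
  have hsepH := sepHyp_prod hm' hx' hind' hE' hle' e0 hsep' (L := N) hd'
  have hz := basis_zS (fun i j => e i (x i j)) hle' e0 hx' hind' hE'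
  have htrE := trdeg_basis hz
  -- generation
  have hmemE' : ∀ z (hz : z ∈ E), (⟨z, hEM z hz⟩ : M) ∈ E' := by
    have h1 : E ≤ E'.map iv := by
      conv_lhs => rw [hE]
      refine iSup_le fun i v hv => ?_
      exact ⟨⟨v, hEM v (hle i hv)⟩, hle' i ((hmem i _).2 hv), rfl⟩
    intro z hz
    obtain ⟨y, hy, hyz⟩ := h1 hz
    have h2 : y = ⟨z, hEM z hz⟩ := Subtype.ext hyz
    rw [← h2]
    exact hy
  have hgen : IntermediateField.adjoin N (Set.range (algebraMap E' M)) = ⊤ := by
    apply IntermediateField.map_injective M.val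
    rw [IntermediateField.adjoin_map, ← AlgHom.fieldRange_eq_map, IntermediateField.fieldRange_val]
    apply le_antisymm
    · rw [IntermediateField.adjoin_le_iff]
      rintro _ ⟨y, -, rfl⟩
      exact y.2
    · have h1 : M ≤ IntermediateField.adjoin N (E : Set K) := hM.le
      refine h1.trans ?_
      rw [IntermediateField.adjoin_le_iff]
      intro z hz
      refine IntermediateField.subset_adjoin _ _ ⟨⟨z, hEM z hz⟩, ⟨⟨_, hmemE' z hz⟩, rfl⟩, rfl⟩
  -- the transcendence degree of `N`
  have hMle : Algebra.trdeg ℂ N = Algebra.trdeg ℂ M := Pool.Agent.N297.SX.trdeg_alg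
  have hlt : Algebra.trdeg ℂ M < Cardinal.aleph0 := trdeg_fin
  obtain ⟨w, hw⟩ := Cardinal.lt_aleph0.1 hlt
  have hNw : Algebra.trdeg ℂ N = w := hMle.trans hw
  have hnw : n ≤ w := by
    have h1 : Algebra.trdeg ℂ E' ≤ Algebra.trdeg ℂ M :=
      trdeg_le_of_injective E'.val E'.val.injective
    rw [htrE, hw] at h1
    exact_mod_cast h1
  obtain ⟨h1, h2⟩ := big_core (M := M) (N := N) (E := E') htrE hNw hz hsepH hgen (by
    intro R hR
    refine hNR R fun z hz => ?_
    have h3 := hR ⟨⟨z, hEM z hz⟩, hmemE' z hz⟩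
    exact alg_tr (A := R) (B := M) (M.val : M →+* K) (fun a => ⟨a, rfl⟩) h3)
  refine ⟨N, w, ⟨hNcl, fun i z hz => hNE z (hle i hz), fun N' hcl hN' =>
    hNmin N' hcl fun z hz => ?_⟩, h1, hnw, h2⟩
  have iNK : IsScalarTower N' L K := IsScalarTower.of_algebraMap_eq fun _ => rfl
  have h5 : E ≤ { (algebraicClosure N' K).toSubfield with
      algebraMap_mem' := fun c => by
        change algebraMap ℂ K c ∈ algebraicClosure N' K
        rw [IsScalarTower.algebraMap_apply ℂ L K]
        exact (algebraicClosure N' K).algebraMap_mem (algebraMap ℂ N' c) } := by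
    rw [hE]
    refine iSup_le fun i v hv => ?_
    change v ∈ algebraicClosure N' K
    rw [mem_algebraicClosure_iff]
    exact hN' i v hv
  exact mem_algebraicClosure_iff.1 (h5 hz)

end main

end Pool.Agent.L7h62.MV
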