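import Mathlib

/-!
Minors of families of functions of finite rank.
-/

set_option autoImplicit false
set_option linter.all false

open Module

namespace Pool.Agent.L7h62.MV

section

variable {N κ ι : Type} [Field N] (θ : κ → ι → N)

/-- minors -/
def mnr {J : Type} [Fintype J] [DecidableEq J] (f : J → κ) (D : J → ι) : N :=
  (Matrix.of fun l j => θ (f l) (D j) : Matrix J J N).det

theorem mnr_equiv {J J' : Type} [Fintype J] [DecidableEq J] [Fintype J'] [DecidableEq J']
    (e : J ≃ J') (f : J' → κ) (D : J' → ι) : mnr θ (f ∘ e) (D ∘ e) = mnr θ f D := by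
  unfold mnr
  exact Matrix.det_submatrix_equiv_self e (Matrix.of fun l j => θ (f l) (D j) : Matrix J' J' N)

theorem exists_max {d : ℕ} (hd : ∀ f D, mnr θ (J := Fin (d + 1)) f D = 0) :
    ∃ (r : ℕ) (f0 : Fin r → κ) (D0 : Fin r → ι), mnr θ f0 D0 ≠ 0 ∧
      ∀ f D, mnr θ (J := Fin (r + 1)) f D = 0 := by
  classical
  by_contra hcon
  push Not at hcon
  have key : ∀ r : ℕ, ∃ (f0 : Fin r → κ) (D0 : Fin r → ι), mnr θ f0 D0 ≠ 0 := by
    intro r
    induction r with
    | zero =>
      refine ⟨Fin.elim0, Fin.elim0, ?_⟩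
      unfold mnr
      rw [Matrix.det_isEmpty]
      exact one_ne_zero
    | succ r ih =>
      obtain ⟨f0, D0, h0⟩ := ih
      exact hcon r f0 D0 h0
  obtain ⟨f0, D0, h0⟩ := key (d + 1)
  exact h0 (hd f0 D0)

theorem expand {r : ℕ} {f0 : Fin r → κ} {D0 : Fin r → ι} (h0 : mnr θ f0 D0 ≠ 0)
    (h1 : ∀ f D, mnr θ (J := Fin (r + 1)) f D = 0) :
    ∃ (a : κ → Fin r → N) (b : Fin r → Fin r → N),
      (∀ f l, a f l = ∑ j, θ f (D0 j) * b j l) ∧
      ∀ f D, θ f D = ∑ l, a f l * θ (f0 l) D := by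
  obtain ⟨B, hB⟩ : ∃ B : Matrix (Fin r) (Fin r) N, B = Matrix.of fun l j => θ (f0 l) (D0 j) :=
    ⟨_, rfl⟩
  have hBdet : B.det ≠ 0 := by
    rw [hB]
    exact h0
  have hBu : IsUnit B.det := isUnit_iff_ne_zero.2 hBdet
  letI hinv : Invertible B := B.invertibleOfIsUnitDet hBu
  refine ⟨fun f l => ∑ j, θ f (D0 j) * B⁻¹ j l, fun j l => B⁻¹ j l, fun f l => rfl, fun f D => ?_⟩
  have h2 : mnr θ (J := Fin r ⊕ Unit) (Sum.elim f0 fun _ => f) (Sum.elim D0 fun _ => D) = 0 := by
    have e : Fin (r + 1) ≃ Fin r ⊕ Unit := Fintype.equivOfCardEq (by simp)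
    rw [← mnr_equiv θ e]
    exact h1 _ _
  have h3 : (Matrix.of fun l j => θ ((Sum.elim f0 fun _ => f : Fin r ⊕ Unit → κ) l)
      ((Sum.elim D0 fun _ => D : Fin r ⊕ Unit → ι) j) : Matrix (Fin r ⊕ Unit) (Fin r ⊕ Unit) N) =
      Matrix.fromBlocks B (Matrix.of fun l _ => θ (f0 l) D) (Matrix.of fun _ j => θ f (D0 j))
        (Matrix.of fun _ _ => θ f D) := by
    ext l j
    rcases l with l | l <;> rcases j with j | j
    · rw [hB]
      rfl
    · rfl
    · rfl
    · rfl
  unfold mnr at h2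
  rw [h3, Matrix.det_fromBlocks₁₁, mul_eq_zero, or_iff_right hBdet, Matrix.det_unique,
    Matrix.sub_apply, sub_eq_zero] at h2
  change θ f D = _ at h2
  rw [h2, Matrix.mul_apply]
  refine Finset.sum_congr rfl fun l _ => ?_
  rw [Matrix.mul_apply, Matrix.invOf_eq_nonsing_inv]
  rfl

theorem mnr_update {r : ℕ} {f0 : Fin r → κ} {a : κ → Fin r → N}
    (ha : ∀ f D, θ f D = ∑ l, a f l * θ (f0 l) D) (f : κ) (l : Fin r) (D : Fin r → ι) :
    mnr θ (Function.update f0 l f) D = a f l * mnr θ f0 D := by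
  unfold mnr
  have h1 : (Matrix.of fun l' j => θ (Function.update f0 l f l') (D j) :
      Matrix (Fin r) (Fin r) N) = (Matrix.of fun l' j => θ (f0 l') (D j) :
      Matrix (Fin r) (Fin r) N).updateRow l (∑ l', a f l' •
        (Matrix.of fun l' j => θ (f0 l') (D j) : Matrix (Fin r) (Fin r) N) l') := by
    ext l' j
    rw [Matrix.updateRow_apply, Matrix.of_apply]
    split_ifs with h
    · rw [h, Function.update_self, ha, Finset.sum_apply]
      rfl
    · rw [Function.update_of_ne h]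
      rfl
  rw [h1, Matrix.det_updateRow_sum, smul_eq_mul]

end

section rank

variable {N M κ ι : Type} [Field N] [Field M] [Algebra N M] [FiniteDimensional N M]

/-- the rank is at most the degree -/
theorem mnr_trace (u : κ → M) (h : ι → M) (f : Fin (finrank N M + 1) → κ)
    (D : Fin (finrank N M + 1) → ι) :
    mnr (fun f D => Algebra.trace N M (u f * h D)) f D = 0 := by
  unfold mnr
  obtain ⟨b⟩ : Nonempty (Basis (Fin (finrank N M)) N M) := ⟨Module.finBasis N M⟩
  have h1 : (Matrix.of fun l j => Algebra.trace N M (u (f l) * h (D j)) :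
      Matrix (Fin (finrank N M + 1)) (Fin (finrank N M + 1)) N) =
      (Matrix.of fun l i => b.repr (u (f l)) i : Matrix _ (Fin (finrank N M)) N) *
        (Matrix.of fun i j => Algebra.trace N M (b i * h (D j)) :
          Matrix (Fin (finrank N M)) _ N) := by
    ext l j
    rw [Matrix.mul_apply, Matrix.of_apply]
    conv_lhs => rw [← b.sum_repr (u (f l)), Finset.sum_mul, map_sum]
    refine Finset.sum_congr rfl fun i _ => ?_
    rw [smul_mul_assoc, map_smul, smul_eq_mul]
    rfl
  by_contra h0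
  have h2 := Matrix.rank_of_isUnit _ ((Matrix.isUnit_iff_isUnit_det _).2 (isUnit_iff_ne_zero.2 h0))
  rw [Fintype.card_fin, h1] at h2
  have h3 := Matrix.rank_mul_le_left
    (Matrix.of fun l i => b.repr (u (f l)) i : Matrix _ (Fin (finrank N M)) N)
    (Matrix.of fun i j => Algebra.trace N M (b i * h (D j)) :
      Matrix (Fin (finrank N M)) (Fin (finrank N M + 1)) N)
  have h4 := Matrix.rank_le_width
    (Matrix.of fun l i => b.repr (u (f l)) i :
      Matrix (Fin (finrank N M + 1)) (Fin (finrank N M)) N)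
  omega

end rank

end Pool.Agent.L7h62.MV
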