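import Pool.Agent.L7h62.MV.Ten

/-!
Exterior products of several forms.
-/

set_option autoImplicit false
set_option linter.all false

open Module FF
open Pool.Agent.W602.GT (DerReg Divisorial)
open Pool.Agent.L7h62.MM

namespace Pool.Agent.L7h62.MV

section

variable {K : Type} [Field K] [Algebra ℂ K] {k : ℕ} {p : Fin k → ℕ}

/-- the values of the exterior product of the forms `ω i` (up to the factor `∏ (p i)!`) -/
noncomputable def wedge (ω : ∀ i, Frm ℂ K (Fin (p i)))
    (D : (i : Fin k) × Fin (p i) → Derivation ℂ K K) : K :=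
  ∑ π : Equiv.Perm ((i : Fin k) × Fin (p i)), ((Equiv.Perm.sign π : ℤ) : K) *
    ∏ i, ω i fun a => D (π ⟨i, a⟩)

/-- the tensor product of the forms -/
noncomputable def tpr (ω : ∀ i, Frm ℂ K (Fin (p i))) :
    MultilinearMap K (fun _ : (i : Fin k) × Fin (p i) => Derivation ℂ K K) K where
  toFun D := ∏ i, ω i fun a => D ⟨i, a⟩
  map_update_add' := by
    intro inst D q u v
    obtain ⟨i0, a0⟩ := q
    have hinst : inst = Sigma.instDecidableEqSigma := Subsingleton.elim _ _
    subst hinst
    have h1 : ∀ u, ∏ i, ω i (fun a => Function.update D ⟨i0, a0⟩ u ⟨i, a⟩) =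
        ω i0 (Function.update (fun a => D ⟨i0, a⟩) a0 u) *
          ∏ i ∈ Finset.univ.erase i0, ω i fun a => D ⟨i, a⟩ := by
      intro u
      rw [← Finset.mul_prod_erase Finset.univ _ (Finset.mem_univ i0)]
      congr 1
      · congr 1
        funext a
        by_cases ha : a = a0
        · subst ha
          rw [Function.update_self, Function.update_self]
        · rw [Function.update_of_ne ha, Function.update_of_ne]
          intro h
          exact ha (eq_of_heq (Sigma.mk.inj h).2)
      · refine Finset.prod_congr rfl fun i hi => ?_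
        congr 1
        funext a
        rw [Function.update_of_ne]
        intro h
        exact (Finset.ne_of_mem_erase hi) (Sigma.mk.inj h).1
    rw [h1, h1, h1, (ω i0).map_update_add, add_mul]
  map_update_smul' := by
    intro inst D q c u
    obtain ⟨i0, a0⟩ := q
    have hinst : inst = Sigma.instDecidableEqSigma := Subsingleton.elim _ _
    subst hinst
    have h1 : ∀ u, ∏ i, ω i (fun a => Function.update D ⟨i0, a0⟩ u ⟨i, a⟩) =
        ω i0 (Function.update (fun a => D ⟨i0, a⟩) a0 u) *
          ∏ i ∈ Finset.univ.erase i0, ω i fun a => D ⟨i, a⟩ := by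
      intro u
      rw [← Finset.mul_prod_erase Finset.univ _ (Finset.mem_univ i0)]
      congr 1
      · congr 1
        funext a
        by_cases ha : a = a0
        · subst ha
          rw [Function.update_self, Function.update_self]
        · rw [Function.update_of_ne ha, Function.update_of_ne]
          intro h
          exact ha (eq_of_heq (Sigma.mk.inj h).2)
      · refine Finset.prod_congr rfl fun i hi => ?_
        congr 1
        funext a
        rw [Function.update_of_ne]
        intro h
        exact (Finset.ne_of_mem_erase hi) (Sigma.mk.inj h).1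
    rw [h1, h1, (ω i0).map_update_smul, smul_eq_mul, smul_eq_mul, mul_assoc]

/-- the exterior product -/
noncomputable def wdF (ω : ∀ i, Frm ℂ K (Fin (p i))) : Frm ℂ K ((i : Fin k) × Fin (p i)) :=
  MultilinearMap.alternatization (tpr ω)

theorem wdF_apply (ω : ∀ i, Frm ℂ K (Fin (p i)))
    (D : (i : Fin k) × Fin (p i) → Derivation ℂ K K) : wdF ω D = wedge ω D := by
  unfold wdF wedge
  rw [MultilinearMap.alternatization_apply]
  refine Finset.sum_congr rfl fun π _ => ?_
  rw [MultilinearMap.domDomCongr_apply]
  change (Equiv.Perm.sign π) • (∏ i, ω i fun a => D (π ⟨i, a⟩)) = _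
  rcases Int.units_eq_one_or (Equiv.Perm.sign π) with h | h
  · rw [h, one_smul, Units.val_one, Int.cast_one, one_mul]
  · rw [h, Units.neg_smul, one_smul, Units.val_neg, Units.val_one, Int.cast_neg, Int.cast_one,
      neg_one_mul]

theorem wedge_reg {ω : ∀ i, Frm ℂ K (Fin (p i))} {f : Fin k → K} {P : Place ℂ K}
    (h : ∀ i, ∀ D : Fin (p i) → Derivation ℂ K K, (∀ a, DerReg P (D a)) →
      P.Reg (f i * ω i D)) : RegF ((∏ i, f i) • wdF ω) P := by
  intro D hD
  rw [AlternatingMap.smul_apply, wdF_apply, smul_eq_mul, wedge, Finset.mul_sum]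
  refine reg_sum P _ _ fun π _ => ?_
  have h1 : (∏ i, f i) * (((Equiv.Perm.sign π : ℤ) : K) * ∏ i, ω i fun a => D (π ⟨i, a⟩)) =
      ((Equiv.Perm.sign π : ℤ) : K) * ∏ i, (f i * ω i fun a => D (π ⟨i, a⟩)) := by
    rw [Finset.prod_mul_distrib]
    ring
  rw [h1]
  have h2 : P.Reg (∏ i, (f i * ω i fun a => D (π ⟨i, a⟩))) :=
    reg_prod P _ _ fun i _ => h i _ fun a => hD _
  rcases Int.units_eq_one_or (Equiv.Perm.sign π) with h | h
  · rw [h, Units.val_one, Int.cast_one, one_mul]
    exact h2
  · rw [h, Units.val_neg, Units.val_one, Int.cast_neg, Int.cast_one, neg_one_mul]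
    exact P.reg_neg h2

end

end Pool.Agent.L7h62.MV
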