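import Pool.Agent.L7h62.MV.SepH
import Pool.Agent.L7h62.MV.Wg
import Pool.Agent.L7h62.MV.Fin

/-!
Traces of systems of holomorphic forms.
-/

set_option autoImplicit false
set_option linter.all false
set_option maxHeartbeats 4000000
set_option synthInstance.maxHeartbeats 400000

open Module FF
open Pool.Agent.W602.GT (DerReg Divisorial RegAt IsPluri)
open Pool.Agent.N145.PC (res res_apply charZero_L ev MF MJ Js mem_Js Sep trdeg_adj)
open Pool.Agent.L7h62.MM

namespace Pool.Agent.L7h62.MV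

/-- The functions `f` in the subfield `B` such that `f ω` is a holomorphic form on the smooth
projective varieties with the function field `K`, of dimension `N`: `f ω` is regular at all prime
divisors. -/
def Sections {K : Type} [Field K] [Algebra ℂ K] (N : ℕ) {p : ℕ} (B : IntermediateField ℂ K)
    (ω : (Derivation ℂ K K) [⋀^Fin p]→ₗ[K] K) : Set B :=
  {f | ∀ P : Place ℂ K, Divisorial N P → ∀ D : Fin p → Derivation ℂ K K,
    (∀ a, DerReg P (D a)) → P.Reg ((f : K) * ω D)}

/-- There are `t + 1` holomorphic covariant tensors on the smooth projective varieties with the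
function field `L`, of dimension `N`: a nonzero tensor `τ 0` and its multiples by the
algebraically independent functions `g 0, ..., g (t - 1)`. -/
def TensorSystem (L : Type) [Field L] [Algebra ℂ L] (N t : ℕ) (g : Fin t → L) : Prop :=
  AlgebraicIndependent ℂ g ∧
  ∃ (q : ℕ) (τ : Fin (t + 1) → MultilinearMap L (fun _ : Fin q => Derivation ℂ L L) L),
    (∀ j, ∀ P : Place ℂ L, Divisorial N P → ∀ D : Fin q → Derivation ℂ L L,
      (∀ i, DerReg P (D i)) → P.Reg (τ j D)) ∧
    τ 0 ≠ 0 ∧ ∀ i, τ i.succ = g i • τ 0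

/-- There are `t + 1` holomorphic canonical forms on the smooth projective varieties with the
function field `L`, of dimension `N`: a nonzero form `η 0` and its multiples by the
algebraically independent functions `g 0, ..., g (t - 1)`. -/
def CanonicalSystem (L : Type) [Field L] [Algebra ℂ L] (N t : ℕ) (g : Fin t → L) : Prop :=
  AlgebraicIndependent ℂ g ∧
  ∃ η : Fin (t + 1) → (Fin N → Derivation ℂ L L) → L,
    (∀ j, IsPluri 1 (η j)) ∧ (∀ P : Place ℂ L, Divisorial N P → ∀ j, RegAt P (η j)) ∧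
    (∃ D, η 0 D ≠ 0) ∧ ∀ i D, η i.succ D = g i * η 0 D

section

variable {N : Type} [Field N] [Algebra ℂ N] {n r : ℕ}

/-- the tensors -/
theorem tens_of {w t : ℕ} {κ : Type} (Θ : κ → Frm ℂ N (Fin n))
    (hΘ : ∀ f, ∀ P : Place ℂ N, Divisorial w P → RegF (Θ f) P)
    {f0 : Fin r → κ} {D0 : Fin r → Fin n → Derivation ℂ N N}
    (h0 : mnr (fun f D => Θ f D) f0 D0 ≠ 0) {a : κ → Fin r → N}
    (ha : ∀ f D, Θ f D = ∑ l, a f l * Θ (f0 l) D) {g : Fin t → κ × Fin r}
    (hg : AlgebraicIndependent ℂ fun i => a (g i).1 (g i).2) :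
    TensorSystem N w t fun i => a (g i).1 (g i).2 := by
  classical
  obtain ⟨e⟩ : Nonempty (Fin r × Fin n ≃ Fin (r * n)) := ⟨finProdFinEquiv⟩
  obtain ⟨τ, hτ⟩ : ∃ τ : (Fin r → κ) → MultilinearMap N (fun _ : Fin (r * n) =>
      Derivation ℂ N N) N, ∀ f, τ f = (tens fun l => Θ (f l)).domDomCongr e := ⟨_, fun _ => rfl⟩
  have hτa : ∀ f D, τ f D = mnr (fun f D => Θ f D) f fun j i => D (e (j, i)) := by
    intro f D
    rw [hτ, MultilinearMap.domDomCongr_apply]
    rfl
  have hreg : ∀ f, ∀ P : Place ℂ N, Divisorial w P → ∀ D : Fin (r * n) → Derivation ℂ N N,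
      (∀ i, DerReg P (D i)) → P.Reg (τ f D) := by
    intro f P hP D hD
    rw [hτ, MultilinearMap.domDomCongr_apply]
    exact tens_reg (fun l => hΘ _ P hP) fun p => hD _
  refine ⟨hg, r * n, Fin.cons (τ f0) fun i => τ (Function.update f0 (g i).2 (g i).1), ?_, ?_,
    fun i => ?_⟩
  · intro j
    refine Fin.cases ?_ (fun i => ?_) j
    · rw [Fin.cons_zero]
      exact hreg _
    · rw [Fin.cons_succ]
      exact hreg _
  · rw [Fin.cons_zero]
    intro h
    apply h0
    have h1 := hτa f0 fun i => D0 (e.symm i).1 (e.symm i).2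
    rw [h] at h1
    simp only [Equiv.symm_apply_apply] at h1
    exact h1.symm
  · rw [Fin.cons_succ, Fin.cons_zero]
    ext D
    rw [hτa, mnr_update (fun f D => Θ f D) ha, MultilinearMap.smul_apply, hτa, smul_eq_mul]

/-- the canonical forms -/
theorem can_of {t : ℕ} (CL : Crd ℂ N (Fin n)) {κ : Type} (Θ : κ → Frm ℂ N (Fin n))
    (hΘ : ∀ f, ∀ P : Place ℂ N, Divisorial n P → RegF (Θ f) P) (hne : ∃ f D, Θ f D ≠ 0)
    {f0 : Fin r → κ} {D0 : Fin r → Fin n → Derivation ℂ N N}
    (h0 : mnr (fun f D => Θ f D) f0 D0 ≠ 0) {a : κ → Fin r → N}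
    (ha : ∀ f D, Θ f D = ∑ l, a f l * Θ (f0 l) D) {g : Fin t → κ × Fin r}
    (hg : AlgebraicIndependent ℂ fun i => a (g i).1 (g i).2) :
    CanonicalSystem N n t fun i => a (g i).1 (g i).2 := by
  classical
  have htop : ∀ f (D : Fin n → Derivation ℂ N N), Θ f D =
      (Matrix.of fun i c => D i (CL.z c) : Matrix (Fin n) (Fin n) N).det * Θ f CL.E := by
    intro f D
    exact top_val (Θ f) (Matrix.of fun i c => D i (CL.z c)) CL.E D
      fun i => (expandD CL (D i)).symm
  have hr : r = 1 := by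
    have h1 : (Matrix.of fun l j => Θ (f0 l) (D0 j) : Matrix (Fin r) (Fin r) N) =
        Matrix.vecMulVec (fun l => Θ (f0 l) CL.E)
          (fun j => (Matrix.of fun i c => D0 j i (CL.z c) : Matrix (Fin n) (Fin n) N).det) := by
      ext l j
      rw [Matrix.of_apply, htop, mul_comm]
      rfl
    have h2 := Matrix.rank_of_isUnit (Matrix.of fun l j => Θ (f0 l) (D0 j) :
      Matrix (Fin r) (Fin r) N) ((Matrix.isUnit_iff_isUnit_det _).2 (isUnit_iff_ne_zero.2 h0))
    rw [Fintype.card_fin, h1] at h2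
    have h3 := Matrix.rank_vecMulVec_le (fun l => Θ (f0 l) CL.E)
          (fun j => (Matrix.of fun i c => D0 j i (CL.z c) : Matrix (Fin n) (Fin n) N).det)
    have h4 : r ≠ 0 := by
      rintro rfl
      obtain ⟨f, D, hfD⟩ := hne
      apply hfD
      rw [ha]
      simp
    omega
  subst hr
  have hl : ∀ l : Fin 1, l = 0 := fun l => Subsingleton.elim _ _
  refine ⟨hg, Fin.cons (fun D => Θ (f0 0) D) fun i => fun D => Θ (g i).1 D, ?_, ?_, ?_, ?_⟩
  · intro j A D
    refine Fin.cases ?_ (fun i => ?_) j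
    · rw [Fin.cons_zero, pow_one]
      exact top_val _ A D _ fun i => rfl
    · rw [Fin.cons_succ, pow_one]
      exact top_val _ A D _ fun i => rfl
  · intro P hP j
    refine Fin.cases ?_ (fun i => ?_) j
    · rw [Fin.cons_zero]
      exact hΘ _ P hP
    · rw [Fin.cons_succ]
      exact hΘ _ P hP
  · refine ⟨D0 0, ?_⟩
    rw [Fin.cons_zero]
    intro h
    apply h0
    unfold mnr
    rw [Matrix.det_unique]
    exact h
  · intro i D
    rw [Fin.cons_succ, Fin.cons_zero]
    rw [ha (g i).1 D, Fin.sum_univ_one]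
    change a (g i).1 0 * _ = a (g i).1 (g i).2 * _
    rw [hl (g i).2]

end

section main

variable {K : Type} [Field K] [Algebra ℂ K] {k N : ℕ} {B : Fin k → IntermediateField ℂ K}
  {p : Fin k → ℕ} {L : Type} [Field L] [Algebra ℂ L] [Algebra L K] [IsScalarTower ℂ L K]
  [FiniteDimensional L K]

/-- **Traces of systems of holomorphic forms.** -/
theorem traces [hess : Algebra.EssFiniteType ℂ K] (hK : Algebra.trdeg ℂ K = N)
    (ω : ∀ i, Frm ℂ K (Fin (p i))) {g : Fin k → ℕ}
    (hS : ∀ (Ω : Type) [Field Ω] [Algebra ℂ Ω] [IsAlgClosed Ω] l,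
      Sep (ev Ω B l) (Sections N (B l) (ω l)) (g l))
    (hd : ∀ l : Fin k, 2 * finrank (MF B L (Js k l.val))
      (IntermediateField.adjoin (MF B L (Js k l.val)) (B l : Set K)) < g l)
    (hT : ∃ f : ∀ i, B i, (∀ i, f i ∈ Sections N (B i) (ω i)) ∧
      ∃ (D : (i : Fin k) × Fin (p i) → Derivation ℂ L L)
        (D' : (i : Fin k) × Fin (p i) → Derivation ℂ K K),
        (∀ j z, D' j (algebraMap L K z) = algebraMap L K (D j z)) ∧
        Algebra.trace L K ((∏ i, (f i : K)) * wedge ω D') ≠ 0) :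
    ∃ (t : ℕ) (u : Fin t → L), TensorSystem L N t u ∧
      (∑ i, p i = N → CanonicalSystem L N t u) ∧
      (∀ i, ∀ z ∈ B i, IsAlgebraic (IntermediateField.adjoin ℂ (Set.range u)) z) ∧
      Algebra.trdeg ℂ (⨆ i, B i : IntermediateField ℂ K) ≤ t := by
  classical
  have hcL : CharZero L := charZero_of_injective_algebraMap (algebraMap ℂ L).injective
  obtain ⟨T, hT0⟩ : ∃ T, T = ⨆ i, B i := ⟨_, rfl⟩
  have hle : ∀ i, B i ≤ T := fun i => by
    rw [hT0]
    exact le_iSup B i
  obtain ⟨H, hH⟩ : ∃ H : Set T, H = prodH (T := T) fun i => Sections N (B i) (ω i) := ⟨_, rfl⟩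
  have hsep : SepTwo H K L := by
    rw [hH]
    exact sepTwo_prod hT0 (fun i => Sections N (B i) (ω i)) hle hS hd
  have f1 : Algebra.EssFiniteType ℂ L := Pool.Agent.TH466.QG.ess_below (K := K)
  have hL : Algebra.trdeg ℂ L = N := Pool.Agent.Y184.NT.trdeg_below (K := K) hK
  obtain ⟨CL⟩ := exists_crd' hL
  choose lf hlf using fun D : Derivation ℂ L L =>
    Pool.Agent.Y172.exists_lift (L := K) CL.trdeg D
  obtain ⟨n, hn⟩ : ∃ n, n = ∑ i, p i := ⟨_, rfl⟩
  obtain ⟨e⟩ : Nonempty ((i : Fin k) × Fin (p i) ≃ Fin n) := by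
    rw [hn]
    exact ⟨finSigmaFinEquiv⟩
  obtain ⟨h, hh⟩ : ∃ h : (Fin n → Derivation ℂ L L) → K, ∀ D, h D =
    wedge ω fun j => lf (D (e j)) := ⟨_, fun _ => rfl⟩
  obtain ⟨Θ, hΘ⟩ : ∃ Θ : {f : T // f ∈ H} → Frm ℂ L (Fin n), ∀ f, Θ f =
    (trF CL ((f.1 : K) • wdF ω)).domDomCongr e := ⟨_, fun _ => rfl⟩
  have hval : ∀ f D, Θ f D = Algebra.trace L K (algebraMap T K f.1 * h D) := by
    intro f D
    rw [hΘ, AlternatingMap.domDomCongr_apply]
    refine (trF_apply CL ((f.1 : K) • wdF ω) (D' := fun j => lf (D (e j)))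
      fun j z => hlf _ z).trans ?_
    rw [AlternatingMap.smul_apply, wdF_apply, smul_eq_mul, hh]
    rfl
  have hreg : ∀ f, ∀ P : Place ℂ L, Divisorial N P → RegF (Θ f) P := by
    intro f P hP
    rw [hΘ]
    refine regF_dom _ (trF_reg CL (by rwa [Fintype.card_fin]) fun Q d hQ => ?_)
    have hf : (f : T) ∈ prodH (T := T) fun i => Sections N (B i) (ω i) := hH.subset f.2
    obtain ⟨f', hf', hff⟩ := hf
    rw [hff]
    exact wedge_reg fun i D hD => hf' i Q (Pool.Agent.Y172.divisorial_up hQ hP) D hD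
  -- the nonzero trace
  obtain ⟨f', hf', E0, E0', hE0, hne⟩ := hT
  obtain ⟨fT, hfT⟩ : ∃ fT : T, (fT : K) = ∏ i, (f' i : K) :=
    ⟨∏ i, IntermediateField.inclusion (hle i) (f' i),
      map_prod T.val (fun i => IntermediateField.inclusion (hle i) (f' i)) Finset.univ⟩
  have hfTH : fT ∈ H := by
    rw [hH]
    exact ⟨f', hf', hfT⟩
  have hE0' : ∀ j, E0' j = lf (E0 j) := fun j =>
    lift_unique CL fun z => by rw [hE0, hlf]
  have hhE : h (fun a => E0 (e.symm a)) = wedge ω E0' := by
    rw [hh]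
    congr 1
    funext j
    rw [hE0', Equiv.symm_apply_apply]
  have hneΘ : Θ ⟨fT, hfTH⟩ (fun a => E0 (e.symm a)) ≠ 0 := by
    rw [hval, hhE]
    change Algebra.trace L K ((fT : K) * wedge ω E0') ≠ 0
    rw [hfT]
    exact hne
  have hhM : ∃ D, Algebra.trace (IntermediateField.adjoin L (Set.range (algebraMap T K))) K
      (h D) ≠ 0 := by
    refine ⟨fun a => E0 (e.symm a), fun h0 => hneΘ ?_⟩
    rw [hval]
    obtain ⟨M, hM⟩ : ∃ M, M = IntermediateField.adjoin L (Set.range (algebraMap T K)) := ⟨_, rfl⟩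
    rw [← hM] at h0
    have hfM : algebraMap T K fT ∈ M := by
      rw [hM]
      exact IntermediateField.subset_adjoin _ _ ⟨fT, rfl⟩
    have h1 : algebraMap T K fT * h (fun a => E0 (e.symm a)) =
        (⟨algebraMap T K fT, hfM⟩ : M) • h (fun a => E0 (e.symm a)) := rfl
    change Algebra.trace L K (algebraMap T K fT * h (fun a => E0 (e.symm a))) = 0
    rw [h1, ← Algebra.trace_trace (S := M), map_smul, h0, smul_zero, map_zero]
  -- the matrix
  obtain ⟨θ, hθ⟩ : ∃ θ : {f : T // f ∈ H} → (Fin n → Derivation ℂ L L) → L,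
      θ = fun f D => Algebra.trace L K (algebraMap T K f.1 * h D) := ⟨_, rfl⟩
  obtain ⟨r, f0, D0, h0, h1⟩ := exists_max θ (d := finrank L K) (by
    rw [hθ]
    exact mnr_trace (fun f : {f : T // f ∈ H} => algebraMap T K f.1) h)
  obtain ⟨a, b, hab, ha⟩ := expand θ h0 h1
  have halg := fun z : T => core_algH hsep h hhM (f0 := f0) (D0 := D0) (a := a) (b := b)
    (fun f l => by
      rw [hab, hθ])
    (fun f D => by
      have h2 := ha f D
      rw [hθ] at h2
      exact h2) z
  obtain ⟨R, hR⟩ : ∃ R, R = IntermediateField.adjoin ℂ (Set.range fun q :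
      {f : T // f ∈ H} × Fin r => a q.1 q.2) := ⟨_, rfl⟩
  rw [← hR] at halg
  have hessR : Algebra.EssFiniteType ℂ R := Pool.Agent.N999.SX.ess_any R
  obtain ⟨t, ht⟩ := Cardinal.lt_aleph0.1 (trdeg_fin (k := ℂ) (M := R))
  obtain ⟨S', hS'⟩ : ∃ S' : Set R, S' = {z : R | ∃ q : {f : T // f ∈ H} × Fin r,
    a q.1 q.2 = (z : L)} := ⟨_, rfl⟩
  have htop : IntermediateField.adjoin ℂ S' = ⊤ := by
    apply IntermediateField.map_injective R.val
    rw [IntermediateField.adjoin_map, ← AlgHom.fieldRange_eq_map, IntermediateField.fieldRange_val]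
    conv_rhs => rw [hR]
    congr 1
    ext z
    constructor
    · rintro ⟨y, hy, rfl⟩
      rw [hS'] at hy
      obtain ⟨q, hq⟩ := hy
      exact ⟨q, hq⟩
    · rintro ⟨q, rfl⟩
      have hq : a q.1 q.2 ∈ R := by
        rw [hR]
        exact IntermediateField.subset_adjoin _ _ ⟨q, rfl⟩
      refine ⟨⟨a q.1 q.2, hq⟩, ?_, rfl⟩
      rw [hS']
      exact ⟨q, rfl⟩
  obtain ⟨u', hu', hu't⟩ := exists_t (N := ℂ) (K := R) (S := S') (q := t) (fun z => by
    rw [htop]
    exact isAlgebraic_algebraMap (⟨z, IntermediateField.mem_top⟩ :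
      (⊤ : IntermediateField ℂ R))) ht
  rw [hS'] at hu'
  choose q hq using hu'
  have huind : AlgebraicIndependent ℂ fun i => a (q i).1 (q i).2 := by
    have h2 := hu't.1.map' (f := R.val) R.val.injective
    have h3 : (fun i => a (q i).1 (q i).2) = fun i => R.val (u' i) := funext fun i => hq i
    rw [h3]
    exact h2
  have hΘθ : ∀ f D, Θ f D = θ f D := by
    intro f D
    rw [hval, hθ]
  have hmn : mnr (fun f D => Θ f D) f0 D0 ≠ 0 := by
    unfold mnr
    simp only [hΘθ]
    exact h0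
  have haΘ : ∀ f D, Θ f D = ∑ l, a f l * Θ (f0 l) D := by
    intro f D
    simp only [hΘθ]
    exact ha f D
  obtain ⟨A, hA⟩ : ∃ A, A = IntermediateField.adjoin ℂ
    (Set.range fun i => a (q i).1 (q i).2) := ⟨_, rfl⟩
  have hRA : ∀ c ∈ R, IsAlgebraic A c := by
    intro c hc
    have h2 := hu't.isAlgebraic_field.isAlgebraic (⟨c, hc⟩ : R)
    have h3 : (IntermediateField.adjoin ℂ (Set.range u')).map R.val = A := by
      rw [IntermediateField.adjoin_map, hA, ← Set.range_comp]
      congr 2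
      funext i
      exact (hq i).symm
    exact alg_tr (A := IntermediateField.adjoin ℂ (Set.range u')) (B := R) (algebraMap R L)
      (fun y => ⟨⟨(y : R), by
        rw [← h3]
        exact ⟨y, y.2, rfl⟩⟩, rfl⟩) h2
  have hTA : ∀ z : T, IsAlgebraic A (z : K) := by
    intro z
    have h2 : IsAlgebraic (algebraicClosure A L) (z : K) :=
      alg_tr (A := R) (B := K) (RingHom.id K)
        (fun y => ⟨⟨(y : L), mem_algebraicClosure_iff.2 (hRA y y.2)⟩, rfl⟩) (halg z)
    have h3 : Algebra.IsAlgebraic A (algebraicClosure A L) := inferInstance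
    exact h2.restrictScalars A
  refine ⟨t, fun i => a (q i).1 (q i).2, tens_of Θ hreg hmn haΘ huind, ?_, ?_, ?_⟩
  · intro hpN
    have hnN : n = N := hn.trans hpN
    subst hnN
    exact can_of CL Θ hreg ⟨_, _, hneΘ⟩ hmn haΘ huind
  · intro i z hz
    rw [← hA]
    exact hTA ⟨z, hle i hz⟩
  · rw [← hT0]
    have i1 : IsScalarTower ℂ A (algebraicClosure A K) :=
      IsScalarTower.of_algebraMap_eq fun c => by
        apply Subtype.ext
        change algebraMap ℂ K c = algebraMap L K (algebraMap ℂ L c)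
        exact IsScalarTower.algebraMap_apply ℂ L K c
    have e1 : Algebra.trdeg ℂ A + Algebra.trdeg A (algebraicClosure A K) =
        Algebra.trdeg ℂ (algebraicClosure A K) :=
      _root_.trdeg_add_eq ℂ A (A := algebraicClosure A K)
    have e2 : Algebra.trdeg A (algebraicClosure A K) = 0 := trdeg_eq_zero
    have e3 : Algebra.trdeg ℂ A = t := by
      rw [hA]
      exact trdeg_adj huind
    rw [e2, add_zero, e3] at e1
    rw [e1]
    let φ : T →ₐ[ℂ] algebraicClosure A K :=
      { toFun := fun z => ⟨(z : K), mem_algebraicClosure_iff.2 (hTA z)⟩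
        map_one' := rfl
        map_mul' := fun _ _ => rfl
        map_zero' := rfl
        map_add' := fun _ _ => rfl
        commutes' := fun c => rfl }
    exact trdeg_le_of_injective φ φ.toRingHom.injective

end main

end Pool.Agent.L7h62.MV
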