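import Pool.Agent.L7h62.MM.Prod
import Pool.Agent.N145.PC.Dich

/-!
Separation of points by arbitrary sets of functions.
-/

set_option autoImplicit false
set_option linter.all false
set_option maxHeartbeats 4000000
set_option synthInstance.maxHeartbeats 400000

open Module FF
open Pool.Agent.N145.SX.Ch (count_le count2_le)
open Pool.Agent.N145.SX (mem_res)
open Pool.Agent.N145.PC (res res_apply sum_trace charZero_L Rl SJ mem_SJ Js mem_Js ev P2 MF MJ Sep
  Rl.chain alg_back exists_generic)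
open Pool.Agent.L7h62.MM (rs)

open scoped Classical

namespace Pool.Agent.L7h62.MV

section

variable {B : Type} [Field B] [Algebra ℂ B] (H : Set B)

/-- the point `σ0` is separated from the other points of `A` by the functions in `H` -/
def SepAtH {Ω : Type} [Field Ω] [Algebra ℂ Ω] (A : Finset (B →ₐ[ℂ] Ω)) (σ0 : B →ₐ[ℂ] Ω) : Prop :=
  ∀ c : (B →ₐ[ℂ] Ω) → Ω, (∀ f ∈ H, ∑ σ ∈ A, c σ * σ f = 0) → c σ0 = 0

variable {H}

/-- grouping of the points with the same image -/
theorem sep_groupH {Ω : Type} [Field Ω] [Algebra ℂ Ω] {T : Type} [Fintype T]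
    (p : T → (B →ₐ[ℂ] Ω)) (w : T → Ω) (τ0 : T)
    (hsep : SepAtH H (Finset.univ.image p) (p τ0))
    (hrel : ∀ f ∈ H, ∑ τ, w τ * p τ f = 0) :
    ∑ τ ∈ Finset.univ.filter (fun τ => p τ = p τ0), w τ = 0 :=
  hsep (fun σ => ∑ τ ∈ Finset.univ.filter (fun τ => p τ = σ), w τ) (by
    intro f hf
    rw [← hrel f hf, ← Finset.sum_fiberwise_of_maps_to (s := Finset.univ)
      (t := Finset.univ.image p) (g := p) (fun τ hτ => Finset.mem_image_of_mem _ hτ)]
    refine Finset.sum_congr rfl fun σ _ => ?_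
    rw [Finset.sum_mul]
    refine Finset.sum_congr rfl fun τ hτ => ?_
    rw [(Finset.mem_filter.1 hτ).2])

variable (H) (K L : Type) [Field K] [Field L] [Algebra ℂ K] [Algebra ℂ L]
  [Algebra L K] [IsScalarTower ℂ L K] [FiniteDimensional L K]
  [Algebra B K] [IsScalarTower ℂ B K]

/-- the points below two points of `W` are separated -/
def SepTwo : Prop :=
  ∀ (Ω' : Type) [Field Ω'] [Algebra ℂ Ω'] [IsAlgClosed Ω']
    (i1 i2 : AlgebraicClosure L →ₐ[ℂ] Ω') (τ0 : K →ₐ[L] AlgebraicClosure L), SepAtH H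
    (Finset.univ.image (Sum.elim
      (fun τ : K →ₐ[L] AlgebraicClosure L => i1.comp (res (K := K) (L := L) B τ))
      (fun τ : K →ₐ[L] AlgebraicClosure L => i2.comp (res (K := K) (L := L) B τ))))
    (i1.comp (res B τ0))

end

section

variable {K L B : Type} [Field K] [Field L] [Algebra ℂ K] [Algebra ℂ L]
  [Algebra L K] [IsScalarTower ℂ L K] [FiniteDimensional L K]
  [Field B] [Algebra ℂ B] [Algebra B K] [IsScalarTower ℂ B K] {H : Set B}

/-- **The points of `B` are determined by the coefficients.** -/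
theorem core_algH (hsep : SepTwo H K L) {ι : Type} (h : ι → K)
    (hh : ∃ D, Algebra.trace (IntermediateField.adjoin L (Set.range (algebraMap B K))) K
      (h D) ≠ 0) {r : ℕ} {f0 : Fin r → {f : B // f ∈ H}}
    {D0 : Fin r → ι} {a : {f : B // f ∈ H} → Fin r → L} {b : Fin r → Fin r → L}
    (hab : ∀ f l, a f l = ∑ j, Algebra.trace L K (algebraMap B K f.1 * h (D0 j)) * b j l)
    (ha : ∀ f D, Algebra.trace L K (algebraMap B K f.1 * h D) =
      ∑ l, a f l * Algebra.trace L K (algebraMap B K (f0 l).1 * h D)) (e : B) :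
    IsAlgebraic (IntermediateField.adjoin ℂ (Set.range fun p :
      {f : B // f ∈ H} × Fin r => a p.1 p.2)) (algebraMap B K e) := by
  have hchar : CharZero L := charZero_L
  obtain ⟨R, hR⟩ : ∃ R, R = IntermediateField.adjoin ℂ (Set.range fun p :
      {f : B // f ∈ H} × Fin r => a p.1 p.2) := ⟨_, rfl⟩
  rw [← hR]
  have haR : ∀ f l, a f l ∈ R := fun f l => by
    rw [hR]
    exact IntermediateField.subset_adjoin _ _ ⟨(f, l), rfl⟩
  let Ω := AlgebraicClosure L
  have hT' : IsScalarTower ℂ L Ω := inferInstance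
  obtain ⟨Ω', iF, iC, k1, k2, hk, hpts⟩ := exists_generic R Ω
  let iA : Algebra ℂ Ω' := (k1.comp (algebraMap ℂ Ω)).toAlgebra
  have h4 : ∀ c : R, k2 (algebraMap L Ω c) = k1 (algebraMap L Ω c) := hk
  let i1 : Ω →ₐ[ℂ] Ω' := { k1 with commutes' := fun c => rfl }
  let i2 : Ω →ₐ[ℂ] Ω' := { k2 with
    commutes' := fun c => by
      have h5 := h4 (algebraMap ℂ R c)
      change k2 (algebraMap ℂ Ω c) = k1 (algebraMap ℂ Ω c)
      rw [IsScalarTower.algebraMap_apply ℂ L Ω]
      exact h5 }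
  have hi : ∀ f l, i1 (algebraMap L Ω (a f l)) = i2 (algebraMap L Ω (a f l)) := fun f l =>
    (h4 ⟨_, haR f l⟩).symm
  obtain ⟨τ0⟩ : Nonempty (K →ₐ[L] Ω) := ⟨IsAlgClosed.lift (R := L) (M := Ω) (S := K)⟩
  by_cases hex : ∃ τ : K →ₐ[L] Ω, ∀ z : B,
    i2 (τ (algebraMap B K z)) = i1 (τ0 (algebraMap B K z))
  · obtain ⟨τ, hτ⟩ := hex
    exact alg_back τ0 (hpts _ _ (hτ e).symm)
  exfalso
  obtain ⟨D, hD⟩ := hh
  apply hD
  obtain ⟨S, hS⟩ : ∃ S : Fin r → Ω', ∀ l, S l =
    i1 (algebraMap L Ω (Algebra.trace L K (algebraMap B K (f0 l).1 * h D))) := ⟨_, fun _ => rfl⟩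
  obtain ⟨c, hc⟩ : ∃ c : Fin r → Ω', ∀ j, c j = ∑ l, i2 (algebraMap L Ω (b j l)) * S l :=
    ⟨_, fun _ => rfl⟩
  let p : (K →ₐ[L] Ω) ⊕ (K →ₐ[L] Ω) → (B →ₐ[ℂ] Ω') :=
    Sum.elim (fun τ => i1.comp (res B τ)) (fun τ => i2.comp (res B τ))
  let wt : (K →ₐ[L] Ω) ⊕ (K →ₐ[L] Ω) → Ω' :=
    Sum.elim (fun τ => i1 (τ (h D))) (fun τ => -∑ j, c j * i2 (τ (h (D0 j))))
  have h1 := sep_groupH p wt (Sum.inl τ0) (hsep Ω' i1 i2 τ0) (by
    intro f hf
    have h3 := ha ⟨f, hf⟩ D
    have h5 : i1 (algebraMap L Ω (Algebra.trace L K (algebraMap B K f * h D))) =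
        ∑ l, (∑ j, i2 (algebraMap L Ω (Algebra.trace L K (algebraMap B K f * h (D0 j)))) *
          i2 (algebraMap L Ω (b j l))) * S l := by
      rw [h3, map_sum, map_sum]
      refine Finset.sum_congr rfl fun l _ => ?_
      rw [map_mul, map_mul, hi, ← hS, hab, map_sum, map_sum]
      congr 1
      refine Finset.sum_congr rfl fun j _ => ?_
      rw [map_mul, map_mul]
    have e1 : ∑ τ : K →ₐ[L] Ω, wt (Sum.inl τ) * p (Sum.inl τ) f =
        i1 (algebraMap L Ω (Algebra.trace L K (algebraMap B K f * h D))) := by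
      rw [trace_eq_sum_embeddings (K := L) (L := K) Ω, map_sum]
      refine Finset.sum_congr rfl fun τ _ => ?_
      change i1 (τ (h D)) * i1 (res B τ f) = _
      rw [res_apply, map_mul, map_mul, mul_comm]
    have e2 : ∑ τ : K →ₐ[L] Ω, wt (Sum.inr τ) * p (Sum.inr τ) f = -∑ j, c j *
        i2 (algebraMap L Ω (Algebra.trace L K (algebraMap B K f * h (D0 j)))) := by
      have e3 : ∀ j, c j *
          i2 (algebraMap L Ω (Algebra.trace L K (algebraMap B K f * h (D0 j)))) =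
          ∑ τ : K →ₐ[L] Ω, c j * (i2 (τ (algebraMap B K f)) * i2 (τ (h (D0 j)))) := by
        intro j
        rw [trace_eq_sum_embeddings (K := L) (L := K) Ω, map_sum, Finset.mul_sum]
        refine Finset.sum_congr rfl fun τ _ => ?_
        rw [map_mul, map_mul]
      rw [Finset.sum_congr rfl fun j _ => e3 j, Finset.sum_comm, ← Finset.sum_neg_distrib]
      refine Finset.sum_congr rfl fun τ _ => ?_
      change (-∑ j, c j * i2 (τ (h (D0 j)))) * i2 (res B τ f) = _
      rw [res_apply, neg_mul, Finset.sum_mul]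
      congr 1
      refine Finset.sum_congr rfl fun j _ => ?_
      ring
    rw [Fintype.sum_sum_type, e1, e2, h5]
    rw [add_neg_eq_zero]
    have e4 : ∀ l, (∑ j, i2 (algebraMap L Ω (Algebra.trace L K (algebraMap B K f * h (D0 j)))) *
          i2 (algebraMap L Ω (b j l))) * S l = ∑ j,
          i2 (algebraMap L Ω (Algebra.trace L K (algebraMap B K f * h (D0 j)))) *
          i2 (algebraMap L Ω (b j l)) * S l := fun l => Finset.sum_mul _ _ _
    rw [Finset.sum_congr rfl fun l _ => e4 l, Finset.sum_comm]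
    refine Finset.sum_congr rfl fun j _ => ?_
    rw [hc, Finset.sum_mul]
    refine Finset.sum_congr rfl fun l _ => ?_
    ring)
  have h2 : ∑ τ ∈ Finset.univ.filter (fun τ => p τ = p (Sum.inl τ0)), wt τ =
      ∑ τ ∈ Finset.univ.filter (fun τ => res (K := K) (L := L) (Ω := Ω) B τ = res B τ0),
        i1 (τ (h D)) := by
    symm
    refine Finset.sum_bij (fun τ _ => Sum.inl τ) ?_ ?_ ?_ ?_
    · intro τ hτ
      rw [Finset.mem_filter] at hτ ⊢
      refine ⟨Finset.mem_univ _, ?_⟩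
      change i1.comp (res B τ) = i1.comp (res B τ0)
      rw [hτ.2]
    · intro a _ b _ hab
      exact Sum.inl_injective hab
    · intro ρ hρ
      rw [Finset.mem_filter] at hρ
      rcases ρ with τ | τ
      · refine ⟨τ, ?_, rfl⟩
        rw [Finset.mem_filter]
        refine ⟨Finset.mem_univ _, ?_⟩
        ext z
        exact i1.injective (DFunLike.congr_fun hρ.2 z)
      · exact absurd ⟨τ, fun z => DFunLike.congr_fun hρ.2 z⟩ hex
    · intro τ _
      rfl
  rw [h2, ← map_sum, _root_.map_eq_zero] at h1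
  have h4 := sum_trace (IntermediateField.adjoin L (Set.range (algebraMap B K))) τ0 _
    (mem_res B τ0) (h D)
  rw [h1] at h4
  have h6 := h4.symm
  rw [_root_.map_eq_zero, _root_.map_eq_zero] at h6
  exact h6

end

section

variable {K : Type} [Field K] [Algebra ℂ K] {k : ℕ} {F : Fin k → IntermediateField ℂ K}
  {T : IntermediateField ℂ K} (hT : T = ⨆ i, F i)
  (hle : ∀ i, F i ≤ T) {g : Fin k → ℕ} (H : ∀ i, Set (F i))

/-- the products of the functions -/
def prodH : Set T := {p | ∃ f : ∀ i, F i, (∀ i, f i ∈ H i) ∧ (p : K) = ∏ i, (f i : K)}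

include hT in
/-- **Separation of points on a product.** -/
theorem sepAtH_prod {Ω : Type} [Field Ω] [Algebra ℂ Ω] [IsAlgClosed Ω]
    (hS : ∀ l, Sep (ev Ω F l) (H l) (g l)) {T0 : Type} [Fintype T0]
    (r : T0 → (T →ₐ[ℂ] Ω)) (τ0 : T0)
    (hcount : ∀ l : Fin k, ((SJ (fun i τ => rs hle i (r τ)) τ0 (Js k l.val)).image
      (fun τ => rs hle l (r τ))).card < g l) :
    SepAtH (prodH (T := T) H) (Finset.univ.image r) (r τ0) := by
  intro c hc
  obtain ⟨A, hA⟩ : ∃ A, A = Finset.univ.image r := ⟨_, rfl⟩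
  rw [← hA] at hc
  have h0A : r τ0 ∈ A := by
    rw [hA]
    exact Finset.mem_image_of_mem _ (Finset.mem_univ _)
  obtain ⟨σ0, hσ0⟩ : ∃ σ0 : A, (σ0 : T →ₐ[ℂ] Ω) = r τ0 := ⟨⟨r τ0, h0A⟩, rfl⟩
  -- the relation
  have h0 : Rl (fun i (σ : A) => rs hle i (σ : T →ₐ[ℂ] Ω)) (ev Ω F) H (fun σ : A => c σ)
      σ0 ∅ := by
    intro f hf
    have h4 := map_prod T.val (fun i => IntermediateField.inclusion (hle i) (f i)) Finset.univ
    have h1 := hc (∏ i, IntermediateField.inclusion (hle i) (f i))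
      ⟨f, fun i => hf i (Finset.notMem_empty i), h4⟩
    have h2 : (SJ (fun i (σ : A) => rs hle i (σ : T →ₐ[ℂ] Ω)) σ0 ∅) = Finset.univ := by
      ext σ
      simp [mem_SJ]
    rw [h2, Finset.compl_empty]
    rw [← Finset.sum_coe_sort] at h1
    rw [← h1]
    refine Finset.sum_congr rfl fun σ _ => ?_
    congr 1
    rw [map_prod]
    rfl
  have h1 := Rl.chain h0 hS (s := k) (fun l _ => by
    refine lt_of_le_of_lt (Finset.card_le_card ?_) (hcount l)
    intro a ha
    obtain ⟨σ, hσ, rfl⟩ := Finset.mem_image.1 ha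
    rw [mem_SJ] at hσ
    have h2 : (σ : T →ₐ[ℂ] Ω) ∈ Finset.univ.image r := by
      rw [← hA]
      exact σ.2
    obtain ⟨τ, -, hτ⟩ := Finset.mem_image.1 h2
    refine Finset.mem_image.2 ⟨τ, ?_, by rw [hτ]⟩
    rw [mem_SJ]
    intro i hi
    have h3 := hσ i hi
    rw [hσ0, ← hτ] at h3
    exact h3)
  have h2 := h1 (fun i => 0) (fun i hi => by
    exfalso
    apply hi
    rw [mem_Js]
    exact i.2)
  have h3 : SJ (fun i (σ : A) => rs hle i (σ : T →ₐ[ℂ] Ω)) σ0 (Js k k) = {σ0} := by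
    ext σ
    rw [mem_SJ, Finset.mem_singleton]
    constructor
    · intro h
      apply Subtype.ext
      have h5 : ∀ z ∈ T, ∀ hz : z ∈ T, (σ : T →ₐ[ℂ] Ω) ⟨z, hz⟩ = (σ0 : T →ₐ[ℂ] Ω) ⟨z, hz⟩ := by
        obtain ⟨W, hW⟩ : ∃ W : IntermediateField ℂ T, ∀ z : T,
            z ∈ W ↔ (σ : T →ₐ[ℂ] Ω) z = (σ0 : T →ₐ[ℂ] Ω) z :=
          ⟨{ AlgHom.equalizer (σ : T →ₐ[ℂ] Ω) (σ0 : T →ₐ[ℂ] Ω) with
              inv_mem' := fun a ha => by
                have ha' : (σ : T →ₐ[ℂ] Ω) a = (σ0 : T →ₐ[ℂ] Ω) a := ha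
                change (σ : T →ₐ[ℂ] Ω) a⁻¹ = (σ0 : T →ₐ[ℂ] Ω) a⁻¹
                rw [map_inv₀, map_inv₀, ha'] }, fun z => Iff.rfl⟩
        have h6 : T ≤ W.map T.val := by
          conv_lhs => rw [hT]
          refine iSup_le fun i v hv => ?_
          refine ⟨⟨v, hle i hv⟩, ?_, rfl⟩
          have h7 := DFunLike.congr_fun (h i (by rw [mem_Js]; exact i.2)) (⟨v, hv⟩ : F i)
          exact (hW _).2 h7
        intro z hz hz'
        obtain ⟨y, hy, hyz⟩ := h6 hz
        have h7 : y = ⟨z, hz'⟩ := Subtype.ext hyz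
        rw [← h7]
        exact (hW y).1 hy
      ext z
      exact h5 z z.2 z.2
    · rintro rfl i _
      rfl
  have h4 : (Js k k)ᶜ = ∅ := by
    ext i
    rw [Finset.mem_compl, mem_Js]
    simp
  rw [h3, h4, Finset.sum_singleton, Finset.prod_empty, mul_one] at h2
  have h5 : c (σ0 : T →ₐ[ℂ] Ω) = 0 := h2
  rwa [hσ0] at h5

variable {L : Type} [Field L] [Algebra ℂ L] [Algebra L K] [IsScalarTower ℂ L K]
  [FiniteDimensional L K]

include hT in
/-- **Separation of the points of two fibres.** -/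
theorem sepTwo_prod (hle : ∀ i, F i ≤ T)
    (hS : ∀ (Ω : Type) [Field Ω] [Algebra ℂ Ω] [IsAlgClosed Ω] l, Sep (ev Ω F l) (H l) (g l))
    (hd : ∀ l : Fin k, 2 * finrank (MF F L (Js k l.val))
      (IntermediateField.adjoin (MF F L (Js k l.val)) (F l : Set K)) < g l) :
    SepTwo (prodH (T := T) H) K L := by
  have hT' : IsScalarTower ℂ L (AlgebraicClosure L) := inferInstance
  intro Ω' _ _ _ i1 i2 τ0
  refine sepAtH_prod hT hle H (hS Ω') (Sum.elim
      (fun τ : K →ₐ[L] AlgebraicClosure L => i1.comp (res (K := K) (L := L) T τ))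
      (fun τ : K →ₐ[L] AlgebraicClosure L => i2.comp (res (K := K) (L := L) T τ)))
      (Sum.inl τ0) fun l => ?_
  have h1 := count2_le (F := F) (Ω := AlgebraicClosure L) i1 i2 τ0 (Js k l.val) l
  have h2 : (fun i (ρ : (K →ₐ[L] AlgebraicClosure L) ⊕ (K →ₐ[L] AlgebraicClosure L)) =>
      rs hle i (Sum.elim
        (fun τ : K →ₐ[L] AlgebraicClosure L => i1.comp (res (K := K) (L := L) T τ))
        (fun τ : K →ₐ[L] AlgebraicClosure L => i2.comp (res (K := K) (L := L) T τ)) ρ)) =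
      P2 i1 i2 F L := by
    funext i ρ
    rcases ρ with τ | τ <;> rfl
  have h4 := hd l
  rw [h2]
  change (Finset.image (fun ρ => (fun i (ρ : (K →ₐ[L] AlgebraicClosure L) ⊕
    (K →ₐ[L] AlgebraicClosure L)) => rs hle i (Sum.elim
        (fun τ : K →ₐ[L] AlgebraicClosure L => i1.comp (res (K := K) (L := L) T τ))
        (fun τ : K →ₐ[L] AlgebraicClosure L => i2.comp (res (K := K) (L := L) T τ)) ρ)) l ρ)
    (SJ (P2 i1 i2 F L) (Sum.inl τ0) (Js k l.val))).card < g l
  rw [h2]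
  exact lt_of_le_of_lt h1 h4

end

end Pool.Agent.L7h62.MV
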