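import Pool.Agent.L7h62.MV.Lin
import Pool.Agent.L7h62.MM.Fin5

/-!
Covariant tensors.
-/

set_option autoImplicit false
set_option linter.all false

open Module FF
open Pool.Agent.W602.GT (DerReg Divisorial)
open Pool.Agent.L7h62.MM

namespace Pool.Agent.L7h62.MV

/-- A tensor power of the cotangent bundle of the smooth projective varieties `Z` with the function
field `N`, of dimension `w`, contains a big line bundle: there are `w + 1` holomorphic covariant
tensors, i.e. multilinear functions of `p` rational vector fields whose values on vector fields that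
are regular at a prime divisor are regular there, which are multiples `g * τ 0` of one of them, and
the `w` quotients `g` are algebraically independent. -/
def BigCotangent (N : Type) [Field N] [Algebra ℂ N] (w : ℕ) : Prop :=
  Algebra.trdeg ℂ N = w ∧
  ∃ (p : ℕ) (τ : Fin (w + 1) → MultilinearMap N (fun _ : Fin p => Derivation ℂ N N) N),
    (∀ j, ∀ P : Place ℂ N, Divisorial w P → ∀ D : Fin p → Derivation ℂ N N,
      (∀ i, DerReg P (D i)) → P.Reg (τ j D)) ∧
    τ 0 ≠ 0 ∧ ∃ g : Fin w → N, AlgebraicIndependent ℂ g ∧ ∀ i, τ i.succ = g i • τ 0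

section

variable {N : Type} [Field N] [Algebra ℂ N] {n r : ℕ}

/-- the minors of forms as tensors -/
noncomputable def tens (Θ : Fin r → Frm ℂ N (Fin n)) :
    MultilinearMap N (fun _ : Fin r × Fin n => Derivation ℂ N N) N where
  toFun D := (Matrix.of fun l j => Θ l (fun i => D (j, i)) : Matrix (Fin r) (Fin r) N).det
  map_update_add' := by
    intro inst D p u v
    obtain ⟨j0, i0⟩ := p
    have h1 : ∀ u : Derivation ℂ N N, (Matrix.of fun l j => Θ l
        (fun i => Function.update D (j0, i0) u (j, i)) : Matrix (Fin r) (Fin r) N) =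
        (Matrix.of fun l j => Θ l (fun i => D (j, i)) : Matrix (Fin r) (Fin r) N).updateCol j0
          (fun l => Θ l (Function.update (fun i => D (j0, i)) i0 u)) := by
      intro u
      ext l j
      rw [Matrix.updateCol_apply, Matrix.of_apply, Matrix.of_apply]
      split_ifs with h
      · subst h
        congr 1
        funext i
        by_cases hi : i = i0
        · subst hi
          rw [Function.update_self, Function.update_self]
        · rw [Function.update_of_ne hi, Function.update_of_ne]
          exact fun h => hi (Prod.ext_iff.1 h).2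
      · congr 1
        funext i
        rw [Function.update_of_ne]
        exact fun h' => h (Prod.ext_iff.1 h').1
    have h2 : ∀ l, Θ l (Function.update (fun i => D (j0, i)) i0 (u + v)) =
        Θ l (Function.update (fun i => D (j0, i)) i0 u) +
        Θ l (Function.update (fun i => D (j0, i)) i0 v) := fun l => (Θ l).map_update_add _ _ _ _
    have h3 := h1 (u + v)
    have h4 := h1 u
    have h5 := h1 v
    have hinst : inst = instDecidableEqProd := Subsingleton.elim _ _
    subst hinst
    rw [h3, h4, h5]
    simp only [h2]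
    exact Matrix.det_updateCol_add _ _ _ _
  map_update_smul' := by
    intro inst D p c u
    obtain ⟨j0, i0⟩ := p
    have h1 : ∀ u : Derivation ℂ N N, (Matrix.of fun l j => Θ l
        (fun i => Function.update D (j0, i0) u (j, i)) : Matrix (Fin r) (Fin r) N) =
        (Matrix.of fun l j => Θ l (fun i => D (j, i)) : Matrix (Fin r) (Fin r) N).updateCol j0
          (fun l => Θ l (Function.update (fun i => D (j0, i)) i0 u)) := by
      intro u
      ext l j
      rw [Matrix.updateCol_apply, Matrix.of_apply, Matrix.of_apply]
      split_ifs with h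
      · subst h
        congr 1
        funext i
        by_cases hi : i = i0
        · subst hi
          rw [Function.update_self, Function.update_self]
        · rw [Function.update_of_ne hi, Function.update_of_ne]
          exact fun h => hi (Prod.ext_iff.1 h).2
      · congr 1
        funext i
        rw [Function.update_of_ne]
        exact fun h' => h (Prod.ext_iff.1 h').1
    have h2 : ∀ l, Θ l (Function.update (fun i => D (j0, i)) i0 (c • u)) =
        c * Θ l (Function.update (fun i => D (j0, i)) i0 u) := fun l =>
          (Θ l).map_update_smul _ _ _ _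
    have h3 := h1 (c • u)
    have h4 := h1 u
    have hinst : inst = instDecidableEqProd := Subsingleton.elim _ _
    subst hinst
    rw [h3, h4]
    simp only [h2]
    exact Matrix.det_updateCol_smul _ _ _ _

theorem tens_apply (Θ : Fin r → Frm ℂ N (Fin n)) (D : Fin r × Fin n → Derivation ℂ N N) :
    tens Θ D = (Matrix.of fun l j => Θ l (fun i => D (j, i)) : Matrix (Fin r) (Fin r) N).det := rfl

theorem tens_reg {Θ : Fin r → Frm ℂ N (Fin n)} {P : Place ℂ N} (h : ∀ l, RegF (Θ l) P)
    {D : Fin r × Fin n → Derivation ℂ N N} (hD : ∀ p, DerReg P (D p)) : P.Reg (tens Θ D) := by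
  rw [tens_apply, Matrix.det_apply]
  refine reg_sum P _ _ fun π _ => ?_
  have h5 : P.Reg (∏ i, (Matrix.of fun l j => Θ l (fun i => D (j, i)) :
      Matrix (Fin r) (Fin r) N) (π i) i) :=
    reg_prod P _ _ fun i _ => h _ _ fun _ => hD _
  rcases Int.units_eq_one_or (Equiv.Perm.sign π) with h | h
  · rw [h, one_smul]
    exact h5
  · rw [h, Units.neg_smul, one_smul]
    exact P.reg_neg h5

/-- the big line bundle -/
theorem big_of {w : ℕ} (hw : Algebra.trdeg ℂ N = w) {κ : Type} (Θ : κ → Frm ℂ N (Fin n))
    (hΘ : ∀ f, ∀ P : Place ℂ N, Divisorial w P → RegF (Θ f) P)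
    {f0 : Fin r → κ} {D0 : Fin r → Fin n → Derivation ℂ N N}
    (h0 : mnr (fun f D => Θ f D) f0 D0 ≠ 0) {a : κ → Fin r → N}
    (ha : ∀ f D, Θ f D = ∑ l, a f l * Θ (f0 l) D) {g : Fin w → κ × Fin r}
    (hg : AlgebraicIndependent ℂ fun i => a (g i).1 (g i).2) : BigCotangent N w := by
  classical
  obtain ⟨e⟩ : Nonempty (Fin r × Fin n ≃ Fin (r * n)) := ⟨finProdFinEquiv⟩
  obtain ⟨τ, hτ⟩ : ∃ τ : (Fin r → κ) → MultilinearMap N (fun _ : Fin (r * n) =>
      Derivation ℂ N N) N, ∀ f, τ f = (tens fun l => Θ (f l)).domDomCongr e := ⟨_, fun _ => rfl⟩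
  have hτa : ∀ f D, τ f D = mnr (fun f D => Θ f D) f fun j i => D (e (j, i)) := by
    intro f D
    rw [hτ, MultilinearMap.domDomCongr_apply]
    rfl
  have hreg : ∀ f, ∀ P : Place ℂ N, Divisorial w P → ∀ D : Fin (r * n) → Derivation ℂ N N,
      (∀ i, DerReg P (D i)) → P.Reg (τ f D) := by
    intro f P hP D hD
    rw [hτ, MultilinearMap.domDomCongr_apply]
    exact tens_reg (fun l => hΘ _ P hP) fun p => hD _
  refine ⟨hw, r * n, Fin.cons (τ f0) fun i => τ (Function.update f0 (g i).2 (g i).1), ?_, ?_,
    fun i => a (g i).1 (g i).2, hg, fun i => ?_⟩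
  · intro j
    refine Fin.cases ?_ (fun i => ?_) j
    · rw [Fin.cons_zero]
      exact hreg _
    · rw [Fin.cons_succ]
      exact hreg _
  · rw [Fin.cons_zero]
    intro h
    apply h0
    have h1 := hτa f0 fun i => D0 (e.symm i).1 (e.symm i).2
    rw [h] at h1
    simp only [Equiv.symm_apply_apply] at h1
    exact h1.symm
  · rw [Fin.cons_succ, Fin.cons_zero]
    ext D
    rw [hτa, mnr_update (fun f D => Θ f D) ha, MultilinearMap.smul_apply, hτa, smul_eq_mul]

end

end Pool.Agent.L7h62.MV
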